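import Mathlib
import Pool.Agent.Q256.LN.Gel

set_option autoImplicit false

/-!
Binary forms and quadratic points of the projective line.
-/

namespace Pool.Agent.Q256.T3

open Finset
open Pool.Agent.Q256.LN

/-- the polynomial of degree at most `d` with coefficients `c`. -/
noncomputable def P {d : ℕ} (c : Fin (d + 1) → ℤ) : Polynomial ℤ :=
  ∑ i, Polynomial.C (c i) * Polynomial.X ^ (i : ℕ)

/-- the polynomial `a X² + b X + e`. -/
noncomputable def G (a b e : ℤ) : Polynomial ℤ :=
  Polynomial.C a * Polynomial.X ^ 2 + Polynomial.C b * Polynomial.X + Polynomial.C e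

theorem P_coeff {d : ℕ} (c : Fin (d + 1) → ℤ) (m : ℕ) :
    (P c).coeff m = if h : m < d + 1 then c ⟨m, h⟩ else 0 := by
  unfold P
  simp only [Polynomial.finsetSum_coeff, Polynomial.coeff_C_mul, Polynomial.coeff_X_pow]
  split_ifs with h
  · rw [Finset.sum_eq_single (⟨m, h⟩ : Fin (d + 1))]
    · simp
    · intro b _ hb
      have : m ≠ (b : ℕ) := fun h' => hb (Fin.ext h'.symm)
      simp [this]
    · intro h'; exact absurd (mem_univ _) h'
  · refine sum_eq_zero (fun b _ => ?_)
    have : m ≠ (b : ℕ) := by have := b.2; omega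
    simp [this]

theorem P_deg {d : ℕ} (c : Fin (d + 1) → ℤ) : (P c).natDegree ≤ d := by
  rw [Polynomial.natDegree_le_iff_coeff_eq_zero]
  intro m hm
  rw [P_coeff, dif_neg (by omega)]

theorem P_aeval {d : ℕ} (c : Fin (d + 1) → ℤ) (z : ℂ) :
    Polynomial.aeval z (P c) = ∑ i, (c i : ℂ) * z ^ (i : ℕ) := by
  unfold P
  rw [map_sum]
  refine sum_congr rfl (fun i _ => ?_)
  simp

theorem P_inj {d : ℕ} : Function.Injective (P (d := d)) := by
  intro c c' h
  funext i
  have := congrArg (fun p => Polynomial.coeff p (i : ℕ)) h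
  simp only [P_coeff, dif_pos i.2] at this
  exact this

theorem P_sub {d : ℕ} (c c' : Fin (d + 1) → ℤ) : P c - P c' = P (c - c') := by
  unfold P
  rw [← sum_sub_distrib]
  refine sum_congr rfl (fun i _ => ?_)
  rw [Pi.sub_apply, Polynomial.C_sub]
  ring

/-- the resultant of `a X² + b X + e` and of the form with coefficients `c`. -/
noncomputable def Res {d : ℕ} (c : Fin (d + 1) → ℤ) (a b e : ℤ) : ℤ :=
  Polynomial.resultant (G a b e) (P c) 2 d

theorem G_map (a b e : ℤ) (θ θ' : ℂ) (hs : (a : ℂ) * (θ + θ') = -b) (hp : (a : ℂ) * (θ * θ') = e) :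
    (G a b e).map (Int.castRingHom ℂ) =
      Polynomial.C (a : ℂ) * ((Polynomial.X - Polynomial.C θ) * (Polynomial.X - Polynomial.C θ')) := by
  unfold G
  simp only [Polynomial.map_add, Polynomial.map_mul, Polynomial.map_pow, Polynomial.map_C,
    Polynomial.map_X, Int.coe_castRingHom]
  have e1 : (b : ℂ) = -((a : ℂ) * (θ + θ')) := by rw [hs]; ring
  rw [e1, ← hp]
  simp only [Polynomial.C_neg, Polynomial.C_mul, Polynomial.C_add]
  ring

theorem res_eq {d : ℕ} (c : Fin (d + 1) → ℤ) (a b e : ℤ) (ha : a ≠ 0) (θ θ' : ℂ)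
    (hs : (a : ℂ) * (θ + θ') = -b) (hp : (a : ℂ) * (θ * θ') = e) :
    (Res c a b e : ℂ) = (a : ℂ) ^ d * (Polynomial.aeval θ (P c) * Polynomial.aeval θ' (P c)) := by
  have haC : (a : ℂ) ≠ 0 := by exact_mod_cast ha
  have h1 : (Res c a b e : ℂ) = Polynomial.resultant ((G a b e).map (Int.castRingHom ℂ))
      ((P c).map (Int.castRingHom ℂ)) 2 d := by
    rw [Polynomial.resultant_map_map]
    rfl
  have hG := G_map a b e θ θ' hs hp
  have hmon : ((Polynomial.X - Polynomial.C θ) * (Polynomial.X - Polynomial.C θ')).Monic :=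
    (Polynomial.monic_X_sub_C θ).mul (Polynomial.monic_X_sub_C θ')
  have hnd : ((G a b e).map (Int.castRingHom ℂ)).natDegree = 2 := by
    rw [hG, Polynomial.natDegree_C_mul haC, Polynomial.natDegree_mul (Polynomial.X_sub_C_ne_zero _)
      (Polynomial.X_sub_C_ne_zero _), Polynomial.natDegree_X_sub_C, Polynomial.natDegree_X_sub_C]
  have hlc : ((G a b e).map (Int.castRingHom ℂ)).leadingCoeff = a := by
    rw [hG, Polynomial.leadingCoeff_mul, hmon.leadingCoeff, Polynomial.leadingCoeff_C, mul_one]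
  have hroots : ((G a b e).map (Int.castRingHom ℂ)).roots = {θ} + {θ'} := by
    rw [hG, Polynomial.roots_C_mul _ haC, Polynomial.roots_mul hmon.ne_zero,
      Polynomial.roots_X_sub_C, Polynomial.roots_X_sub_C]
  have hsp : ((G a b e).map (Int.castRingHom ℂ)).Splits := IsAlgClosed.splits _
  have h2 := Polynomial.resultant_eq_prod_eval ((G a b e).map (Int.castRingHom ℂ))
    ((P c).map (Int.castRingHom ℂ)) d (Polynomial.natDegree_map_le.trans (P_deg c)) hsp
  rw [hnd, hlc, hroots] at h2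
  rw [h1, h2]
  congr 1
  rw [Multiset.map_add, Multiset.prod_add, Multiset.map_singleton, Multiset.map_singleton,
    Multiset.prod_singleton, Multiset.prod_singleton]
  have h3 : ∀ z : ℂ, Polynomial.eval z ((P c).map (Int.castRingHom ℂ)) =
      Polynomial.aeval z (P c) := by
    intro z
    rw [Polynomial.eval_map, Polynomial.aeval_def]
    rfl
  rw [h3, h3]

/-- a primitive irreducible quadratic polynomial `a X² + b X + e` of discriminant `f² D`, `D`
squarefree. -/
structure Quad (a b e f D : ℤ) : Prop where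
  prim : ∃ x y z : ℤ, x * a + y * b + z * e = 1
  disc : b ^ 2 - 4 * a * e = f ^ 2 * D
  fpos : 0 < f
  sq : Squarefree D
  D1 : D ≠ 1

theorem Quad.D0 {a b e f D : ℤ} (h : Quad a b e f D) : D ≠ 0 := h.sq.ne_zero

/-- a squarefree number other than one is not a square. -/
theorem not_sq {D : ℤ} (hD : Squarefree D) (h1 : D ≠ 1) (x y : ℤ) (hy : y ≠ 0) :
    x ^ 2 ≠ D * y ^ 2 := by
  intro h
  -- `y ∣ x`
  have h2 : y ^ 2 ∣ x ^ 2 := ⟨D, by rw [h]; ring⟩
  have h3 : y ∣ x := (Int.pow_dvd_pow_iff (by norm_num)).1 h2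
  obtain ⟨k, rfl⟩ := h3
  have h4 : D = k ^ 2 := by
    have : y ^ 2 * (D - k ^ 2) = 0 := by linear_combination -h
    rcases mul_eq_zero.1 this with h5 | h5
    · exact absurd (pow_eq_zero_iff (by norm_num) |>.1 h5) hy
    · linarith
  have h5 : k * k ∣ D := ⟨1, by rw [h4]; ring⟩
  have h6 := hD k h5
  rcases Int.isUnit_iff.1 h6 with h7 | h7 <;> · rw [h7] at h4; norm_num at h4; exact h1 h4

theorem Quad.a0 {a b e f D : ℤ} (h : Quad a b e f D) : a ≠ 0 := by
  rintro rfl
  refine not_sq h.sq h.D1 b f h.fpos.ne' ?_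
  have := h.disc
  linarith

theorem Quad.e0 {a b e f D : ℤ} (h : Quad a b e f D) : e ≠ 0 := by
  rintro rfl
  refine not_sq h.sq h.D1 b f h.fpos.ne' ?_
  have := h.disc
  linarith

/-- the reversed polynomial. -/
theorem Quad.rev {a b e f D : ℤ} (h : Quad a b e f D) : Quad e b a f D := by
  obtain ⟨x, y, z, h1⟩ := h.prim
  exact ⟨⟨z, y, x, by linarith⟩, by have := h.disc; linarith, h.fpos, h.sq, h.D1⟩

/-- the translated polynomial. -/
theorem Quad.shift {a b e f D : ℤ} (h : Quad a b e f D) : Quad a (2 * a + b) (a + b + e) f D := by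
  obtain ⟨x, y, z, h1⟩ := h.prim
  refine ⟨⟨x - 2 * y + z, y - z, z, by linear_combination h1⟩, ?_, h.fpos, h.sq, h.D1⟩
  have := h.disc
  linear_combination this

/-- the roots. -/
theorem exists_sqrt (D : ℤ) : ∃ r : ℂ, r ^ 2 = D := by
  obtain ⟨r, hr⟩ := IsAlgClosed.exists_pow_nat_eq (D : ℂ) (n := 2) (by norm_num)
  exact ⟨r, hr⟩

end Pool.Agent.Q256.T3
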