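import Mathlib
import Pool.Agent.Q256.VT.Tup
import Pool.Agent.H510R2.Div
import Pool.Agent.Q184.T3.Norm

set_option autoImplicit false

/-!
Counting the data attached to a form and a quadratic point.
-/

namespace Pool.Agent.Q256.T3

open Finset
open Pool.Agent.H813R3.Voj (rho rho_pos)
open Pool.Agent.Q256.VT (Tup card_tup)

/-- the statement of the count of square roots. -/
def RootCount (η : ℝ) : Prop :=
  ∃ (C : ℝ) (s : ℕ → ℕ → ℝ), 0 < C ∧ (∀ M a, 0 ≤ s M a) ∧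
    (∀ (M a : ℕ) (n : ℤ), 1 ≤ a →
      (Nat.card {b : ℤ // |b| ≤ M ∧ (a : ℤ) ∣ b ^ 2 - n} : ℝ) ≤ s M a) ∧
    ∀ M : ℕ, 1 ≤ M → ∑ a ∈ Finset.Icc 1 M, s M a ≤ C * (M : ℝ) ^ (1 + η)

open scoped Classical in
/-- the fields. -/
noncomputable def DS (M : ℕ) : Finset ℤ :=
  (Icc (-((5 * M ^ 2 : ℕ) : ℤ)) ((5 * M ^ 2 : ℕ) : ℤ)).filter (fun D => Squarefree D ∧ D ≠ 1)

/-- the values. -/
noncomputable def mS (S : Finset ℕ) (X : ℕ) (R : ℝ) (D : ℤ) : Finset ℤ :=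
  (Icc (-(X : ℤ)) X).filter (fun m => m ≠ 0 ∧ (rho S m : ℝ) * |(D : ℝ)| ≤ R)

/-- leading coefficients. -/
noncomputable def aS (M : ℕ) : Finset ℤ := (Icc (-(M : ℤ)) M).filter (fun a => a ≠ 0)

/-- solutions of the norm equation. -/
noncomputable def xS (D k : ℤ) (B : ℕ) : Finset (ℤ × ℤ) :=
  (Icc (-(B : ℤ)) B ×ˢ Icc (-(B : ℤ)) B).filter (fun p => p.1 ^ 2 - D * p.2 ^ 2 = k ∧ p.2 ≠ 0)

/-- conductors. -/
noncomputable def fS (Z : ℤ) : Finset ℤ := Z.natAbs.divisors.image (fun f : ℕ => (f : ℤ))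

/-- middle coefficients. -/
noncomputable def bS (M : ℕ) (a n : ℤ) : Finset ℤ := (Icc (-(M : ℤ)) M).filter (fun b => a ∣ b ^ 2 - n)

/-- the data. -/
noncomputable def Data (d : ℕ) (S : Finset ℕ) (M X B : ℕ) (R : ℝ) :
    Finset (Σ (_ : ℤ) (_ : ℤ) (_ : ℤ) (_ : ℤ × ℤ) (_ : ℤ), ℤ) :=
  (DS M).sigma fun D => (mS S X R D).sigma fun m => (aS M).sigma fun a =>
    (xS D ((4 * a) ^ d * m) B).sigma fun p => (fS p.2).sigma fun f => bS M a (f ^ 2 * D)

theorem card_mS (S : Finset ℕ) (η : ℝ) (hη : 0 < η) :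
    ∃ C : ℝ, 0 < C ∧ ∀ (X : ℕ) (R : ℝ) (D : ℤ), 1 ≤ X → 0 ≤ R → D ≠ 0 →
      (#(mS S X R D) : ℝ) ≤ C * R * (X : ℝ) ^ η * (1 / |(D : ℝ)|) := by
  classical
  obtain ⟨C, hC, h⟩ := card_tup 1 S η hη
  refine ⟨C, hC, fun X R D hX hR hD => ?_⟩
  have hD0 : 0 < |(D : ℝ)| := abs_pos.2 (by exact_mod_cast hD)
  have h1 := h (fun _ => X) (R / |(D : ℝ)|) (fun _ => hX) (by positivity)
  rw [prod_const, card_univ, Fintype.card_fin, pow_one] at h1
  have h2 : #(mS S X R D) ≤ #(Tup (r := 1) S (fun _ => X) (R / |(D : ℝ)|)) := by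
    refine card_le_card_of_injOn (fun m _ => m) ?_ ?_
    · intro m hm
      rw [mem_coe, mS, mem_filter] at hm
      rw [mem_coe, Tup, mem_filter, Fintype.mem_piFinset]
      refine ⟨fun _ => hm.1, fun _ => hm.2.1, ?_⟩
      rw [le_div_iff₀ hD0, Fin.prod_univ_one]
      exact hm.2.2
    · intro m _ m' _ h
      exact congrFun h 0
  have h3 : (#(mS S X R D) : ℝ) ≤ #(Tup (r := 1) S (fun _ => X) (R / |(D : ℝ)|)) := by
    exact_mod_cast h2
  refine h3.trans (h1.trans (le_of_eq ?_))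
  ring

theorem card_le_natCard {α : Type*} (F : Finset α) (p : α → Prop) [Finite {x // p x}]
    (h : ∀ x ∈ F, p x) : #F ≤ Nat.card {x // p x} := by
  have h1 : #F = Nat.card F := by rw [Nat.card_eq_fintype_card, Fintype.card_coe]
  rw [h1]
  refine Nat.card_le_card_of_injective (fun x : F => (⟨x.1, h x.1 x.2⟩ : {x // p x})) ?_
  intro x y hxy
  exact Subtype.ext (Subtype.mk.inj hxy)

theorem card_xS (η : ℝ) (hη : 0 < η) :
    ∃ C : ℝ, 0 < C ∧ ∀ (D k : ℤ) (B : ℕ), Squarefree D → D ≠ 1 → k ≠ 0 → 1 ≤ B →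
      (#(xS D k B) : ℝ) ≤ C * ((B : ℝ) * |(k : ℝ)| * |(D : ℝ)|) ^ η := by
  classical
  obtain ⟨C, hC, h⟩ := Pool.Agent.Q184.T3.norm_eq_count η hη
  refine ⟨C, hC, fun D k B hD hD1 hk hB => le_trans ?_ (h D k B hD hD1 hk hB)⟩
  have hfin : Finite {p : ℤ × ℤ // p.1 ^ 2 - D * p.2 ^ 2 = k ∧ |p.1| ≤ B ∧ |p.2| ≤ B} := by
    refine Set.Finite.subset (s := ((Icc (-(B : ℤ)) B ×ˢ Icc (-(B : ℤ)) B : Finset (ℤ × ℤ)) :
      Set (ℤ × ℤ))) (finite_toSet _) ?_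
    intro p hp
    rw [mem_coe, mem_product, mem_Icc, mem_Icc, ← abs_le, ← abs_le]
    exact ⟨hp.2.1, hp.2.2⟩
  have h1 := card_le_natCard (xS D k B)
    (fun p : ℤ × ℤ => p.1 ^ 2 - D * p.2 ^ 2 = k ∧ |p.1| ≤ B ∧ |p.2| ≤ B) (by
      intro p hp
      rw [xS, mem_filter, mem_product, mem_Icc, mem_Icc, ← abs_le, ← abs_le] at hp
      exact ⟨hp.2.1, hp.1.1, hp.1.2⟩)
  exact_mod_cast h1

theorem card_bS (s : ℕ → ℕ → ℝ)
    (hs : ∀ (M a : ℕ) (n : ℤ), 1 ≤ a →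
      (Nat.card {b : ℤ // |b| ≤ M ∧ (a : ℤ) ∣ b ^ 2 - n} : ℝ) ≤ s M a)
    (M : ℕ) (a n : ℤ) (ha : a ≠ 0) : (#(bS M a n) : ℝ) ≤ s M a.natAbs := by
  refine le_trans ?_ (hs M a.natAbs n (Int.natAbs_pos.2 ha))
  have hfin : Finite {b : ℤ // |b| ≤ M ∧ ((a.natAbs : ℕ) : ℤ) ∣ b ^ 2 - n} := by
    refine Set.Finite.subset (s := ((Icc (-(M : ℤ)) M : Finset ℤ) : Set ℤ)) (finite_toSet _) ?_
    intro p hp
    rw [mem_coe, mem_Icc, ← abs_le]
    exact hp.1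
  have h1 := card_le_natCard (bS M a n)
    (fun b : ℤ => |b| ≤ M ∧ ((a.natAbs : ℕ) : ℤ) ∣ b ^ 2 - n) (by
      intro b hb
      rw [bS, mem_filter, mem_Icc, ← abs_le] at hb
      exact ⟨hb.1, Int.natAbs_dvd.2 hb.2⟩)
  exact_mod_cast h1

/-- a sum over nonzero integers in terms of a sum over natural numbers. -/
theorem sum_sym (M : ℕ) (g : ℕ → ℝ) (hg : ∀ n, 0 ≤ g n) :
    ∑ a ∈ aS M, g a.natAbs ≤ 2 * ∑ n ∈ Icc 1 M, g n := by
  classical
  have hmaps : ∀ a ∈ aS M, a.natAbs ∈ Icc 1 M := by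
    intro a ha
    rw [aS, mem_filter, mem_Icc] at ha
    rw [mem_Icc]
    omega
  rw [← sum_fiberwise_of_maps_to hmaps, mul_sum]
  refine sum_le_sum (fun n _ => ?_)
  have h1 : ∑ a ∈ (aS M).filter (fun a => a.natAbs = n), g a.natAbs =
      #((aS M).filter (fun a => a.natAbs = n)) * g n := by
    rw [sum_congr rfl (g := fun _ => g n) (fun a ha => by rw [(mem_filter.1 ha).2]), sum_const,
      nsmul_eq_mul]
  rw [h1]
  refine mul_le_mul_of_nonneg_right ?_ (hg n)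
  have h2 : #((aS M).filter (fun a => a.natAbs = n)) ≤ #({(n : ℤ), -(n : ℤ)} : Finset ℤ) := by
    refine card_le_card ?_
    intro a ha
    rw [mem_filter] at ha
    rw [mem_insert, mem_singleton]
    omega
  have h3 : #({(n : ℤ), -(n : ℤ)} : Finset ℤ) ≤ 2 := card_le_two
  exact_mod_cast h2.trans h3

theorem card_fS (η : ℝ) (hη : 0 < η) :
    ∃ C : ℝ, 0 < C ∧ ∀ (Z : ℤ) (B : ℕ), Z ≠ 0 → |Z| ≤ B → (#(fS Z) : ℝ) ≤ C * (B : ℝ) ^ η := by
  obtain ⟨C, hC, h⟩ := Pool.Agent.H510R2.divisor_bound η hη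
  refine ⟨C, hC, fun Z B hZ hB => ?_⟩
  have h1 := h Z.natAbs (Int.natAbs_pos.2 hZ)
  have h2 : (#(fS Z) : ℝ) ≤ #(Z.natAbs.divisors) := by
    exact_mod_cast card_image_le
  refine h2.trans (h1.trans ?_)
  refine mul_le_mul_of_nonneg_left ?_ hC.le
  refine Real.rpow_le_rpow (Nat.cast_nonneg _) ?_ hη.le
  rw [Int.abs_eq_natAbs] at hB
  exact_mod_cast hB

/-- the harmonic sum over the fields. -/
theorem sum_D (η : ℝ) (hη : 0 < η) :
    ∃ C : ℝ, 0 < C ∧ ∀ M : ℕ, 1 ≤ M → ∑ D ∈ DS M, 1 / |(D : ℝ)| ≤ C * (M : ℝ) ^ η := by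
  classical
  -- logarithm
  have hlog : ∀ n : ℕ, 1 ≤ n → ∑ k ∈ Icc 1 n, 1 / (k : ℝ) ≤ (1 + 2 / η) * (n : ℝ) ^ (η / 2) := by
    intro n hn
    have h1 := harmonic_le_one_add_log n
    have h2 : ((harmonic n : ℚ) : ℝ) = ∑ k ∈ Icc 1 n, 1 / (k : ℝ) := by
      rw [harmonic_eq_sum_Icc]
      push_cast
      exact sum_congr rfl (fun k _ => by rw [one_div])
    rw [h2] at h1
    have hn1 : (1 : ℝ) ≤ n := by exact_mod_cast hn
    have h3 : (1 : ℝ) ≤ (n : ℝ) ^ (η / 2) := Real.one_le_rpow hn1 (by positivity)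
    have h4 : Real.log n ≤ (n : ℝ) ^ (η / 2) / (η / 2) :=
      Real.log_le_rpow_div (by positivity) (by positivity)
    have h5 : (n : ℝ) ^ (η / 2) / (η / 2) = 2 / η * (n : ℝ) ^ (η / 2) := by
      field_simp
    rw [h5] at h4
    linarith
  refine ⟨2 * ((1 + 2 / η) * 5 ^ (η / 2)), by positivity, fun M hM => ?_⟩
  have hsub : DS M ⊆ aS (5 * M ^ 2) := by
    intro D hD
    rw [DS, mem_filter] at hD
    rw [aS, mem_filter]
    exact ⟨hD.1, hD.2.1.ne_zero⟩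
  have h1 : ∑ D ∈ DS M, 1 / |(D : ℝ)| ≤ ∑ D ∈ aS (5 * M ^ 2), 1 / ((D.natAbs : ℕ) : ℝ) := by
    refine (sum_le_sum_of_subset_of_nonneg hsub (fun D _ _ => by positivity)).trans
      (le_of_eq (sum_congr rfl (fun D _ => ?_)))
    rw [Nat.cast_natAbs, Int.cast_abs]
  refine h1.trans ((sum_sym (5 * M ^ 2) (fun n => 1 / (n : ℝ)) (fun n => by positivity)).trans ?_)
  rw [mul_assoc]
  refine mul_le_mul_of_nonneg_left ?_ (by norm_num)
  have hM0 : 0 < M := hM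
  refine (hlog (5 * M ^ 2) (Nat.succ_le_of_lt (by positivity))).trans (le_of_eq ?_)
  rw [mul_assoc]
  congr 1
  push_cast
  rw [Real.mul_rpow (by norm_num) (by positivity), ← Real.rpow_natCast (M : ℝ) 2, ← Real.rpow_mul
    (by positivity)]
  congr 2
  push_cast
  ring

/-- **The number of data.** -/
theorem card_data (hroot : ∀ η : ℝ, 0 < η → RootCount η) (d : ℕ) (S : Finset ℕ) (η : ℝ)
    (hη : 0 < η) : ∃ C : ℝ, 0 < C ∧ ∀ (M X B : ℕ) (R : ℝ), 1 ≤ M → 1 ≤ X → 1 ≤ B → 0 ≤ R →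
      (#(Data d S M X B R) : ℝ) ≤ C * R * M * ((M * X * B : ℕ) : ℝ) ^ η := by
  classical
  set t : ℝ := η / (d + 6) with ht
  have ht0 : 0 < t := by positivity
  obtain ⟨Cm, hCm, hm⟩ := card_mS S t ht0
  obtain ⟨Cx, hCx, hx⟩ := card_xS t ht0
  obtain ⟨Cf, hCf, hf⟩ := card_fS t ht0
  obtain ⟨CD, hCD, hD⟩ := sum_D t ht0
  obtain ⟨Cr, s, hCr, hs0, hs1, hs2⟩ := hroot t ht0
  refine ⟨Cm * (Cx * (5 * 4 ^ d) ^ t) * Cf * (2 * Cr) * CD, by positivity,
    fun M X B R hM hX hB hR => ?_⟩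
  have hMr : (1 : ℝ) ≤ M := by exact_mod_cast hM
  have hXr : (1 : ℝ) ≤ X := by exact_mod_cast hX
  have hBr : (1 : ℝ) ≤ B := by exact_mod_cast hB
  set L : ℝ := ((M * X * B : ℕ) : ℝ) with hL
  have hLe : L = M * X * B := by rw [hL]; push_cast; ring
  have hL1 : 1 ≤ L := by
    rw [hLe]
    exact one_le_mul_of_one_le_of_one_le (one_le_mul_of_one_le_of_one_le hMr hXr) hBr
  have hL0 : (0 : ℝ) < L := by linarith
  have hML : (M : ℝ) ≤ L := by
    rw [hLe, mul_assoc]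
    exact le_mul_of_one_le_right (by linarith) (one_le_mul_of_one_le_of_one_le hXr hBr)
  have hXL : (X : ℝ) ≤ L := by
    rw [hLe]
    calc (X : ℝ) ≤ M * X := le_mul_of_one_le_left (by linarith) hMr
      _ ≤ M * X * B := le_mul_of_one_le_right (by positivity) hBr
  have hBL : (B : ℝ) ≤ L := by
    rw [hLe]
    exact le_mul_of_one_le_left (by linarith) (one_le_mul_of_one_le_of_one_le hMr hXr)
  set E : ℝ := L ^ t with hE
  have hE0 : 0 < E := Real.rpow_pos_of_pos hL0 _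
  have hMt : (M : ℝ) ^ t ≤ E := Real.rpow_le_rpow (by positivity) hML ht0.le
  have hXt : (X : ℝ) ^ t ≤ E := Real.rpow_le_rpow (by positivity) hXL ht0.le
  have hBt : (B : ℝ) ^ t ≤ E := Real.rpow_le_rpow (by positivity) hBL ht0.le
  set E1 : ℝ := Cx * (5 * 4 ^ d) ^ t * E ^ (d + 2) with hE1
  have hE10 : 0 ≤ E1 := by positivity
  set E2 : ℝ := Cf * E with hE2
  have hE20 : 0 ≤ E2 := by positivity
  -- the inner sums
  have step1 : ∀ D ∈ DS M, ∀ m ∈ mS S X R D, ∀ a ∈ aS M,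
      ∑ p ∈ xS D ((4 * a) ^ d * m) B, ∑ f ∈ fS p.2, (#(bS M a (f ^ 2 * D)) : ℝ) ≤
        E1 * (E2 * s M a.natAbs) := by
    intro D hDm m hmm a ham
    rw [DS, mem_filter, mem_Icc, ← abs_le] at hDm
    rw [mS, mem_filter, mem_Icc, ← abs_le] at hmm
    rw [aS, mem_filter, mem_Icc, ← abs_le] at ham
    have hin : ∀ p ∈ xS D ((4 * a) ^ d * m) B,
        ∑ f ∈ fS p.2, (#(bS M a (f ^ 2 * D)) : ℝ) ≤ E2 * s M a.natAbs := by
      intro p hp
      rw [xS, mem_filter, mem_product, mem_Icc, mem_Icc, ← abs_le, ← abs_le] at hp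
      have h1 : ∑ f ∈ fS p.2, (#(bS M a (f ^ 2 * D)) : ℝ) ≤ #(fS p.2) • s M a.natAbs :=
        sum_le_card_nsmul _ _ _ (fun f _ => card_bS s hs1 M a _ ham.2)
      rw [nsmul_eq_mul] at h1
      refine h1.trans (mul_le_mul_of_nonneg_right ?_ (hs0 _ _))
      refine (hf p.2 B hp.2.2 hp.1.2).trans ?_
      exact mul_le_mul_of_nonneg_left hBt hCf.le
    have h1 := sum_le_card_nsmul _ _ _ hin
    rw [nsmul_eq_mul] at h1
    refine h1.trans (mul_le_mul_of_nonneg_right ?_ (mul_nonneg hE20 (hs0 _ _)))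
    have hk : (4 * a) ^ d * m ≠ 0 :=
      mul_ne_zero (pow_ne_zero _ (mul_ne_zero (by norm_num) ham.2)) hmm.2.1
    refine (hx D _ B hDm.2.1 hDm.2.2 hk hB).trans ?_
    rw [hE1, mul_assoc Cx]
    refine mul_le_mul_of_nonneg_left ?_ hCx.le
    have hbase : (B : ℝ) * |(((4 * a) ^ d * m : ℤ) : ℝ)| * |(D : ℝ)| ≤ (5 * 4 ^ d) * L ^ (d + 2) := by
      have e1 : |(a : ℝ)| ≤ M := by exact_mod_cast ham.1
      have e2 : |(m : ℝ)| ≤ X := by exact_mod_cast hmm.1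
      have e3 : |(D : ℝ)| ≤ 5 * (M : ℝ) ^ 2 := by exact_mod_cast hDm.1
      push_cast
      rw [abs_mul, abs_pow, abs_mul, abs_of_pos (by norm_num : (0 : ℝ) < 4)]
      have e4 : (4 * |(a : ℝ)|) ^ d ≤ (4 * M) ^ d :=
        pow_le_pow_left₀ (by positivity) (by linarith) _
      calc (B : ℝ) * ((4 * |(a : ℝ)|) ^ d * |(m : ℝ)|) * |(D : ℝ)|
          ≤ (B : ℝ) * ((4 * M) ^ d * X) * (5 * (M : ℝ) ^ 2) := by
            refine mul_le_mul (mul_le_mul_of_nonneg_left (mul_le_mul e4 e2 (abs_nonneg _)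
              (by positivity)) (by positivity)) e3 (abs_nonneg _) (by positivity)
        _ = (5 * 4 ^ d) * ((M : ℝ) ^ (d + 2) * X * B) := by ring
        _ ≤ (5 * 4 ^ d) * L ^ (d + 2) := by
            refine mul_le_mul_of_nonneg_left ?_ (by positivity)
            rw [hLe, mul_pow, mul_pow]
            have f1 : (X : ℝ) ≤ (X : ℝ) ^ (d + 2) := le_self_pow₀ hXr (by omega)
            have f2 : (B : ℝ) ≤ (B : ℝ) ^ (d + 2) := le_self_pow₀ hBr (by omega)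
            exact mul_le_mul (mul_le_mul_of_nonneg_left f1 (by positivity)) f2 (by positivity)
              (by positivity)
    refine (Real.rpow_le_rpow (by positivity) hbase ht0.le).trans (le_of_eq ?_)
    rw [Real.mul_rpow (by positivity) (by positivity), hE, ← Real.rpow_natCast (L ^ t) (d + 2),
      ← Real.rpow_natCast L (d + 2), ← Real.rpow_mul hL0.le, ← Real.rpow_mul hL0.le, mul_comm t]
  have step2 : ∀ D ∈ DS M, ∀ m ∈ mS S X R D, ∑ a ∈ aS M,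
      ∑ p ∈ xS D ((4 * a) ^ d * m) B, ∑ f ∈ fS p.2, (#(bS M a (f ^ 2 * D)) : ℝ) ≤
        E1 * (E2 * (2 * Cr * (M * E))) := by
    intro D hDm m hmm
    refine (sum_le_sum (fun a ha => step1 D hDm m hmm a ha)).trans ?_
    rw [← mul_sum, ← mul_sum]
    refine mul_le_mul_of_nonneg_left (mul_le_mul_of_nonneg_left ?_ hE20) hE10
    refine (sum_sym M (fun n => s M n) (fun n => hs0 M n)).trans ?_
    rw [mul_assoc]
    refine mul_le_mul_of_nonneg_left ?_ (by norm_num)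
    refine (hs2 M hM).trans (mul_le_mul_of_nonneg_left ?_ hCr.le)
    rw [Real.rpow_add (by linarith), Real.rpow_one]
    exact mul_le_mul_of_nonneg_left hMt (by positivity)
  set K : ℝ := E1 * (E2 * (2 * Cr * (M * E))) with hK
  have hK0 : 0 ≤ K := by positivity
  have step3 : ∀ D ∈ DS M, ∑ m ∈ mS S X R D, ∑ a ∈ aS M,
      ∑ p ∈ xS D ((4 * a) ^ d * m) B, ∑ f ∈ fS p.2, (#(bS M a (f ^ 2 * D)) : ℝ) ≤
        Cm * R * E * K * (1 / |(D : ℝ)|) := by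
    intro D hDm
    have h1 := sum_le_card_nsmul _ _ _ (step2 D hDm)
    rw [nsmul_eq_mul] at h1
    refine h1.trans ?_
    rw [DS, mem_filter] at hDm
    have h2 := hm X R D hX hR hDm.2.1.ne_zero
    calc (#(mS S X R D) : ℝ) * K ≤ (Cm * R * (X : ℝ) ^ t * (1 / |(D : ℝ)|)) * K :=
          mul_le_mul_of_nonneg_right h2 hK0
      _ ≤ (Cm * R * E * (1 / |(D : ℝ)|)) * K := by
          refine mul_le_mul_of_nonneg_right (mul_le_mul_of_nonneg_right
            (mul_le_mul_of_nonneg_left hXt (by positivity)) (by positivity)) hK0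
      _ = _ := by ring
  have hcard : (#(Data d S M X B R) : ℝ) = ∑ D ∈ DS M, ∑ m ∈ mS S X R D, ∑ a ∈ aS M,
      ∑ p ∈ xS D ((4 * a) ^ d * m) B, ∑ f ∈ fS p.2, (#(bS M a (f ^ 2 * D)) : ℝ) := by
    unfold Data
    rw [card_sigma]
    push_cast
    refine sum_congr rfl (fun D _ => ?_)
    rw [card_sigma]
    push_cast
    refine sum_congr rfl (fun m _ => ?_)
    rw [card_sigma]
    push_cast
    refine sum_congr rfl (fun a _ => ?_)
    rw [card_sigma]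
    push_cast
    refine sum_congr rfl (fun p _ => ?_)
    rw [card_sigma]
    push_cast
    rfl
  rw [hcard]
  refine (sum_le_sum step3).trans ?_
  rw [← mul_sum]
  refine (mul_le_mul_of_nonneg_left ((hD M hM).trans (mul_le_mul_of_nonneg_left hMt hCD.le))
    (by positivity)).trans (le_of_eq ?_)
  have hLη : L ^ η = E ^ (d + 6) := by
    rw [hE, ← Real.rpow_natCast (L ^ t) (d + 6), ← Real.rpow_mul hL0.le]
    congr 1
    rw [ht]
    push_cast
    field_simp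
  rw [hLη, hK, hE1, hE2]
  ring

end Pool.Agent.Q256.T3
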