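import Mathlib
import Pool.Agent.Q256.T3.Def

set_option autoImplicit false

namespace Pool.Agent.Q256.T3

open Finset

/-- the value of the form at `(-b + f √D, 2 a)`. -/
def xi {d : ℕ} (c : Fin (d + 1) → ℤ) (a b f D : ℤ) : ℤ√D :=
  ∑ i : Fin (d + 1), ((c i : ℤ) : ℤ√D) * (⟨-b, f⟩ : ℤ√D) ^ (i : ℕ) *
    (((2 * a : ℤ)) : ℤ√D) ^ (d - (i : ℕ))

theorem im_sum {ι : Type*} {D : ℤ} (s : Finset ι) (g : ι → ℤ√D) :
    (∑ i ∈ s, g i).im = ∑ i ∈ s, (g i).im := by
  classical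
  induction s using Finset.induction_on with
  | empty => simp
  | insert i s hi ih => rw [sum_insert hi, sum_insert hi, Zsqrtd.im_add, ih]

theorem im_pow_dvd (D b f : ℤ) (i : ℕ) : f ∣ ((⟨b, f⟩ : ℤ√D) ^ i).im := by
  induction i with
  | zero => simp
  | succ i ih =>
    rw [pow_succ, Zsqrtd.im_mul]
    exact dvd_add (Dvd.intro_left _ rfl) (ih.mul_right _)

theorem im_dvd {d : ℕ} (c : Fin (d + 1) → ℤ) (a b f D : ℤ) : f ∣ (xi c a b f D).im := by
  unfold xi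
  rw [im_sum]
  refine dvd_sum (fun i _ => ?_)
  have h1 : (((2 * a : ℤ)) : ℤ√D) ^ (d - (i : ℕ)) = (((2 * a) ^ (d - (i : ℕ)) : ℤ) : ℤ√D) := by
    push_cast; rfl
  rw [h1, Zsqrtd.im_mul, Zsqrtd.im_intCast, mul_zero, zero_add, Zsqrtd.im_mul, Zsqrtd.re_intCast,
    Zsqrtd.im_intCast, zero_mul, add_zero]
  exact ((im_pow_dvd D (-b) f i).mul_left _).mul_right _

/-- the embedding given by a square root. -/
noncomputable def phi {D : ℤ} (r : ℂ) (hr : r ^ 2 = D) : ℤ√D →+* ℂ :=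
  Zsqrtd.lift ⟨r, by rw [← sq]; exact hr⟩

theorem phi_apply {D : ℤ} (r : ℂ) (hr : r ^ 2 = D) (x : ℤ√D) :
    phi r hr x = x.re + x.im * r := by
  unfold phi
  rw [Zsqrtd.lift_apply_apply]

theorem neg_sq' {D : ℤ} {r : ℂ} (hr : r ^ 2 = D) : (-r) ^ 2 = (D : ℂ) := by rw [neg_sq, hr]

/-- a root. -/
noncomputable def root (a b f : ℤ) (r : ℂ) : ℂ := (-(b : ℂ) + f * r) / (2 * a)

theorem phi_xi {d : ℕ} (c : Fin (d + 1) → ℤ) (a b f D : ℤ) (ha : a ≠ 0) (r : ℂ) (hr : r ^ 2 = D) :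
    phi r hr (xi c a b f D) = (2 * (a : ℂ)) ^ d * Polynomial.aeval (root a b f r) (P c) := by
  have haC : (2 * (a : ℂ)) ≠ 0 := by
    have : (a : ℂ) ≠ 0 := by exact_mod_cast ha
    exact mul_ne_zero two_ne_zero this
  unfold xi root
  rw [map_sum, P_aeval, mul_sum]
  refine sum_congr rfl (fun i _ => ?_)
  rw [map_mul, map_mul, map_pow, map_pow, map_intCast, map_intCast, phi_apply, div_pow]
  have hi : (i : ℕ) ≤ d := Nat.lt_succ_iff.1 i.2
  have h1 : (2 * (a : ℂ)) ^ d = (2 * (a : ℂ)) ^ (d - (i : ℕ)) * (2 * (a : ℂ)) ^ (i : ℕ) := by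
    rw [← pow_add, Nat.sub_add_cancel hi]
  rw [h1]
  push_cast
  field_simp

theorem root_sum (a b f : ℤ) (ha : a ≠ 0) (r : ℂ) :
    (a : ℂ) * (root a b f r + root a b f (-r)) = -b := by
  have haC : (a : ℂ) ≠ 0 := by exact_mod_cast ha
  unfold root
  field_simp
  ring

theorem root_prod {a b e f D : ℤ} (h : Quad a b e f D) (r : ℂ) (hr : r ^ 2 = D) :
    (a : ℂ) * (root a b f r * root a b f (-r)) = e := by
  have haC : (a : ℂ) ≠ 0 := by exact_mod_cast h.a0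
  have h1 : (b : ℂ) ^ 2 - 4 * a * e = f ^ 2 * D := by exact_mod_cast h.disc
  unfold root
  field_simp
  linear_combination h1 - (f : ℂ) ^ 2 * hr

theorem norm_eq {d : ℕ} (c : Fin (d + 1) → ℤ) {a b e f D : ℤ} (h : Quad a b e f D) :
    (xi c a b f D).re ^ 2 - D * (xi c a b f D).im ^ 2 = (4 * a) ^ d * Res c a b e := by
  obtain ⟨r, hr⟩ := exists_sqrt D
  have haC : (a : ℂ) ≠ 0 := by exact_mod_cast h.a0
  have h1 := phi_xi c a b f D h.a0 r hr
  have h2 := phi_xi c a b f D h.a0 (-r) (neg_sq' hr)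
  rw [phi_apply] at h1 h2
  have h3 := res_eq c a b e h.a0 _ _ (root_sum a b f h.a0 r) (root_prod h r hr)
  have h4 : (((xi c a b f D).re ^ 2 - D * (xi c a b f D).im ^ 2 : ℤ) : ℂ) =
      (((4 * a) ^ d * Res c a b e : ℤ) : ℂ) := by
    push_cast
    rw [h3]
    calc ((xi c a b f D).re : ℂ) ^ 2 - D * (xi c a b f D).im ^ 2
        = (((xi c a b f D).re : ℂ) + (xi c a b f D).im * r) *
          (((xi c a b f D).re : ℂ) + (xi c a b f D).im * (-r)) := by
          linear_combination ((xi c a b f D).im : ℂ) ^ 2 * hr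
      _ = (2 * (a : ℂ)) ^ d * Polynomial.aeval (root a b f r) (P c) *
          ((2 * (a : ℂ)) ^ d * Polynomial.aeval (root a b f (-r)) (P c)) := by rw [h1, h2]
      _ = _ := by
          have e1 : (2 * (a : ℂ)) ^ d * (2 * (a : ℂ)) ^ d = (4 * (a : ℂ)) ^ d * (a : ℂ) ^ d := by
            rw [← mul_pow, ← mul_pow]; congr 1; ring
          calc _ = ((2 * (a : ℂ)) ^ d * (2 * (a : ℂ)) ^ d) *
                (Polynomial.aeval (root a b f r) (P c) *
                  Polynomial.aeval (root a b f (-r)) (P c)) := by ring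
            _ = _ := by rw [e1]; ring
  exact_mod_cast h4

/-- the bound for the value. -/
theorem phi_bound {d : ℕ} (c : Fin (d + 1) → ℤ) {a b e f D : ℤ} (h : Quad a b e f D) (T : ℕ)
    (hc : ∀ i, |c i| ≤ T) (ha : |a| ≤ T) (hb : |b| ≤ T) (he : |e| ≤ T) (r : ℂ) (hr : r ^ 2 = D) :
    ‖phi r hr (xi c a b f D)‖ ≤ (d + 1) * T * (4 * T) ^ d := by
  have har : |(a : ℝ)| ≤ T := by exact_mod_cast ha
  have hbr : |(b : ℝ)| ≤ T := by exact_mod_cast hb
  have her : |(e : ℝ)| ≤ T := by exact_mod_cast he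
  have hT0 : (0 : ℝ) ≤ T := Nat.cast_nonneg _
  have h1 : ‖(f : ℂ) * r‖ ≤ 3 * T := by
    have h2 : ‖(f : ℂ) * r‖ ^ 2 = |((b : ℝ) ^ 2 - 4 * a * e)| := by
      rw [← norm_pow, mul_pow, hr]
      have h3 : (b : ℝ) ^ 2 - 4 * a * e = ((f ^ 2 * D : ℤ) : ℝ) := by
        rw [← h.disc]; push_cast; ring
      rw [h3]
      have h4 : ((f : ℂ) ^ 2 * (D : ℂ)) = (((f ^ 2 * D : ℤ)) : ℂ) := by push_cast; ring
      rw [h4, Complex.norm_intCast]
    have h3 : |((b : ℝ) ^ 2 - 4 * a * e)| ≤ (3 * (T : ℝ)) ^ 2 := by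
      have e1 : |(b : ℝ) ^ 2| ≤ (T : ℝ) ^ 2 := by
        rw [abs_pow]; exact pow_le_pow_left₀ (abs_nonneg _) hbr 2
      have e2 : |4 * (a : ℝ) * e| ≤ 4 * (T : ℝ) ^ 2 := by
        rw [abs_mul, abs_mul, abs_of_pos (by norm_num : (0 : ℝ) < 4)]
        have := mul_le_mul har her (abs_nonneg _) hT0
        nlinarith
      calc |((b : ℝ) ^ 2 - 4 * a * e)| ≤ |(b : ℝ) ^ 2| + |4 * (a : ℝ) * e| := abs_sub _ _
        _ ≤ _ := by nlinarith
    rw [← h2] at h3
    exact (sq_le_sq₀ (norm_nonneg _) (by positivity)).1 h3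
  unfold xi
  rw [map_sum]
  refine (norm_sum_le _ _).trans ?_
  have hterm : ∀ i ∈ (univ : Finset (Fin (d + 1))),
      ‖phi r hr (((c i : ℤ) : ℤ√D) * (⟨-b, f⟩ : ℤ√D) ^ (i : ℕ) *
        (((2 * a : ℤ)) : ℤ√D) ^ (d - (i : ℕ)))‖ ≤ T * (4 * T) ^ d := by
    intro i _
    have hi : (i : ℕ) ≤ d := Nat.lt_succ_iff.1 i.2
    rw [map_mul, map_mul, map_pow, map_pow, map_intCast, map_intCast, phi_apply, norm_mul, norm_mul,
      norm_pow, norm_pow, Complex.norm_intCast]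
    have e1 : |((c i : ℤ) : ℝ)| ≤ T := by exact_mod_cast hc i
    have e2 : ‖(((-b : ℤ)) : ℂ) + (f : ℂ) * r‖ ≤ 4 * T := by
      refine (norm_add_le _ _).trans ?_
      rw [Complex.norm_intCast]
      push_cast
      rw [abs_neg]
      linarith
    have e3 : ‖(((2 * a : ℤ)) : ℂ)‖ ≤ 4 * T := by
      rw [Complex.norm_intCast]
      push_cast
      rw [abs_mul, abs_of_pos (by norm_num : (0 : ℝ) < 2)]
      linarith
    calc _ ≤ (T : ℝ) * (4 * T) ^ (i : ℕ) * (4 * T) ^ (d - (i : ℕ)) := by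
          refine mul_le_mul (mul_le_mul e1 (pow_le_pow_left₀ (norm_nonneg _) e2 _) (by positivity)
            hT0) (pow_le_pow_left₀ (norm_nonneg _) e3 _) (by positivity) (by positivity)
      _ = T * (4 * T) ^ d := by rw [mul_assoc, ← pow_add, Nat.add_sub_cancel' hi]
  refine (sum_le_sum hterm).trans (le_of_eq ?_)
  rw [sum_const, card_univ, Fintype.card_fin, nsmul_eq_mul]
  push_cast
  ring

/-- the bound of the coordinates and of the resultant. -/
theorem bounds {d : ℕ} (c : Fin (d + 1) → ℤ) {a b e f D : ℤ} (h : Quad a b e f D) (T : ℕ)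
    (hc : ∀ i, |c i| ≤ T) (ha : |a| ≤ T) (hb : |b| ≤ T) (he : |e| ≤ T) :
    |(xi c a b f D).re| ≤ (((d + 1) * T * (4 * T) ^ d : ℕ) : ℤ) ∧
    |(xi c a b f D).im| ≤ (((d + 1) * T * (4 * T) ^ d : ℕ) : ℤ) ∧
    |Res c a b e| ≤ (((d + 1) * T * (4 * T) ^ d : ℕ) : ℤ) ^ 2 := by
  obtain ⟨r, hr⟩ := exists_sqrt D
  set B : ℕ := (d + 1) * T * (4 * T) ^ d with hB
  have hBr : (B : ℝ) = (d + 1) * T * (4 * T) ^ d := by rw [hB]; push_cast; ring
  have h1 := phi_bound c h T hc ha hb he r hr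
  have h2 := phi_bound c h T hc ha hb he (-r) (neg_sq' hr)
  rw [← hBr, phi_apply] at h1 h2
  set x := xi c a b f D with hx
  have hr1 : 1 ≤ ‖r‖ := by
    have h3 : ‖r‖ ^ 2 = |(D : ℝ)| := by
      rw [← norm_pow, hr, Complex.norm_intCast]
    have h4 : (1 : ℝ) ≤ |(D : ℝ)| := by exact_mod_cast Int.one_le_abs h.D0
    rw [← h3] at h4
    by_contra hcon
    push Not at hcon
    nlinarith [norm_nonneg r]
  have e1 : ((x.re : ℂ)) = ((x.re + x.im * r) + (x.re + x.im * (-r))) / 2 := by ring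
  have e2 : (x.im : ℂ) * r = ((x.re + x.im * r) - (x.re + x.im * (-r))) / 2 := by ring
  have b1 : |(x.re : ℝ)| ≤ B := by
    rw [← Complex.norm_intCast, e1, norm_div]
    have : ‖(2 : ℂ)‖ = 2 := by simp
    rw [this, div_le_iff₀ (by norm_num)]
    exact (norm_add_le _ _).trans (by linarith)
  have b2 : |(x.im : ℝ)| ≤ B := by
    have h3 : |(x.im : ℝ)| * ‖r‖ ≤ B := by
      rw [← Complex.norm_intCast, ← norm_mul, e2, norm_div]
      have : ‖(2 : ℂ)‖ = 2 := by simp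
      rw [this, div_le_iff₀ (by norm_num)]
      exact (norm_sub_le _ _).trans (by linarith)
    exact (le_mul_of_one_le_right (abs_nonneg _) hr1).trans h3
  have b3 : |(Res c a b e : ℝ)| ≤ (B : ℝ) ^ 2 := by
    have h3 := norm_eq c h
    have h4 : (((4 * a) ^ d * Res c a b e : ℤ) : ℂ) = ((x.re : ℂ) + x.im * r) *
        ((x.re : ℂ) + x.im * (-r)) := by
      rw [← h3]
      push_cast
      linear_combination (x.im : ℂ) ^ 2 * hr
    have h5 : |(((4 * a) ^ d * Res c a b e : ℤ) : ℝ)| ≤ (B : ℝ) ^ 2 := by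
      rw [← Complex.norm_intCast, h4, norm_mul, sq]
      exact mul_le_mul h1 h2 (norm_nonneg _) (Nat.cast_nonneg _)
    refine le_trans ?_ h5
    push_cast
    rw [abs_mul]
    refine le_mul_of_one_le_left (abs_nonneg _) ?_
    have h6 : (1 : ℤ) ≤ |(4 * a) ^ d| := by
      rw [abs_pow]
      refine one_le_pow₀ ?_
      exact Int.one_le_abs (mul_ne_zero (by norm_num) h.a0)
    have h7 : (1 : ℝ) ≤ ((|(4 * a) ^ d| : ℤ) : ℝ) := by exact_mod_cast h6
    rw [Int.cast_abs] at h7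
    push_cast at h7
    exact h7
  refine ⟨by exact_mod_cast b1, by exact_mod_cast b2, by exact_mod_cast b3⟩

/-- irrational values. -/
theorem im_ne {d : ℕ} (c : Fin (d + 1) → ℤ) {a b e f D : ℤ} (h : Quad a b e f D) (r : ℂ)
    (hr : r ^ 2 = D) (hne : Polynomial.aeval (root a b f r) (P c) ≠
      Polynomial.aeval (root a b f (-r)) (P c)) : (xi c a b f D).im ≠ 0 := by
  intro h0
  apply hne
  have haC : (2 * (a : ℂ)) ^ d ≠ 0 := by
    have : (a : ℂ) ≠ 0 := by exact_mod_cast h.a0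
    exact pow_ne_zero _ (mul_ne_zero two_ne_zero this)
  have h1 := phi_xi c a b f D h.a0 r hr
  have h2 := phi_xi c a b f D h.a0 (-r) (neg_sq' hr)
  rw [phi_apply, h0] at h1 h2
  refine mul_left_cancel₀ haC ?_
  rw [← h1, ← h2]
  simp

/-- forms with the same value. -/
theorem same_value {d : ℕ} (c c' : Fin (d + 1) → ℤ) {a b e f D : ℤ} (h : Quad a b e f D)
    (heq : xi c a b f D = xi c' a b f D) (r : ℂ) (hr : r ^ 2 = D) :
    Polynomial.aeval (root a b f r) (P (c - c')) = 0 := by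
  have haC : (2 * (a : ℂ)) ^ d ≠ 0 := by
    have : (a : ℂ) ≠ 0 := by exact_mod_cast h.a0
    exact pow_ne_zero _ (mul_ne_zero two_ne_zero this)
  have h1 := phi_xi c a b f D h.a0 r hr
  have h2 := phi_xi c' a b f D h.a0 r hr
  rw [heq, h2] at h1
  have h3 := mul_left_cancel₀ haC h1
  rw [← P_sub, map_sub, h3, sub_self]

end Pool.Agent.Q256.T3
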