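import Mathlib
import Pool.Agent.Q256.T3.Nrm

set_option autoImplicit false

/-!
The number of forms with a given value at a quadratic point.
-/

namespace Pool.Agent.Q256.T3

open Finset
open Pool.Agent.Q256.LN

/-- the largest coefficient. -/
def sz (a b e : ℤ) : ℕ := max a.natAbs (max b.natAbs e.natAbs)

theorem le_sz (a b e : ℤ) : |a| ≤ (sz a b e : ℤ) ∧ |b| ≤ (sz a b e : ℤ) ∧ |e| ≤ (sz a b e : ℤ) := by
  unfold sz
  rw [Int.abs_eq_natAbs, Int.abs_eq_natAbs, Int.abs_eq_natAbs]
  refine ⟨?_, ?_, ?_⟩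
  · exact_mod_cast le_max_left _ _
  · exact_mod_cast (le_max_left b.natAbs e.natAbs).trans (le_max_right _ _)
  · exact_mod_cast (le_max_right b.natAbs e.natAbs).trans (le_max_right _ _)

theorem G_coeff (a b e : ℤ) (i : ℕ) : (G a b e).coeff i =
    if i = 0 then e else if i = 1 then b else if i = 2 then a else 0 := by
  unfold G
  rw [Polynomial.coeff_add, Polynomial.coeff_add, Polynomial.coeff_C_mul, Polynomial.coeff_C_mul,
    Polynomial.coeff_X_pow, Polynomial.coeff_X, Polynomial.coeff_C]
  rcases i with _ | _ | _ | i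
  · norm_num
  · norm_num
  · norm_num
  · rw [if_neg (by omega), if_neg (by omega), if_neg (by omega), if_neg (by omega),
      if_neg (by omega), if_neg (by omega)]
    ring

theorem G_natDegree (a b e : ℤ) (ha : a ≠ 0) : (G a b e).natDegree = 2 := by
  apply le_antisymm
  · rw [Polynomial.natDegree_le_iff_coeff_eq_zero]
    intro i hi
    rw [G_coeff, if_neg (by omega), if_neg (by omega), if_neg (by omega)]
  · refine Polynomial.le_natDegree_of_ne_zero ?_
    rw [G_coeff]
    simpa using ha

theorem G_prim {a b e f D : ℤ} (h : Quad a b e f D) : (G a b e).IsPrimitive := by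
  intro r hr
  obtain ⟨q, hq⟩ := hr
  obtain ⟨x, y, z, h1⟩ := h.prim
  have c0 := congrArg (fun p => Polynomial.coeff p 0) hq
  have c1 := congrArg (fun p => Polynomial.coeff p 1) hq
  have c2 := congrArg (fun p => Polynomial.coeff p 2) hq
  simp only [G_coeff, Polynomial.coeff_C_mul] at c0 c1 c2
  norm_num at c0 c1 c2
  refine isUnit_of_dvd_one ⟨x * q.coeff 2 + y * q.coeff 1 + z * q.coeff 0, ?_⟩
  rw [← h1, c0, c1, c2]
  ring

/-- the quadratic polynomial divides every integral polynomial which vanishes at its root. -/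
theorem G_dvd {a b e f D : ℤ} (h : Quad a b e f D) (r : ℂ) (hr : r ^ 2 = D) (p : Polynomial ℤ)
    (hp : Polynomial.aeval (root a b f r) p = 0) : G a b e ∣ p := by
  rw [Polynomial.IsPrimitive.Int.dvd_iff_map_cast_dvd_map_cast _ _ (G_prim h)]
  have haQ : (a : ℚ) ≠ 0 := by exact_mod_cast h.a0
  have haC : (a : ℂ) ≠ 0 := by exact_mod_cast h.a0
  set z := root a b f r with hz
  have hmap : ∀ q : Polynomial ℤ, Polynomial.aeval z (q.map (Int.castRingHom ℚ)) =
      Polynomial.aeval z q := by
    intro q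
    have := Polynomial.aeval_map_algebraMap ℚ z q
    rw [show algebraMap ℤ ℚ = Int.castRingHom ℚ from rfl] at this
    exact this
  -- division with remainder
  set g : Polynomial ℚ := (G a b e).map (Int.castRingHom ℚ) with hg
  have hg2 : g.natDegree = 2 := by
    rw [hg, Polynomial.natDegree_map_eq_of_injective Int.cast_injective, G_natDegree a b e h.a0]
  have hg0 : g ≠ 0 := by
    intro h0
    rw [h0] at hg2
    simp at hg2
  have hgz : Polynomial.aeval z g = 0 := by
    rw [hg, hmap]
    unfold G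
    simp only [map_add, map_mul, map_pow, Polynomial.aeval_X]
    have e1 : ∀ m : ℤ, Polynomial.aeval z (Polynomial.C m) = (m : ℂ) := fun m => by simp
    rw [e1, e1, e1]
    have hs := root_sum a b f h.a0 r
    have hp' := root_prod h r hr
    rw [← hz] at hs hp'
    have e2 : (b : ℂ) = -((a : ℂ) * (z + root a b f (-r))) := by rw [hs]; ring
    rw [e2, ← hp']
    ring
  set q : Polynomial ℚ := p.map (Int.castRingHom ℚ) with hq
  have hqz : Polynomial.aeval z q = 0 := by rw [hq, hmap, hp]
  have hdiv := EuclideanDomain.div_add_mod q g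
  have hmodz : Polynomial.aeval z (q % g) = 0 := by
    have h1 := congrArg (Polynomial.aeval z) hdiv
    rw [map_add, map_mul, hgz, zero_mul, zero_add, hqz] at h1
    exact h1
  have hdeg : (q % g).natDegree ≤ 1 := by
    have h1 := Polynomial.natDegree_mod_lt q (q := g) (by rw [hg2]; norm_num)
    rw [hg2] at h1
    omega
  -- a linear relation
  obtain ⟨u, v, huv⟩ : ∃ u v : ℚ, q % g = Polynomial.C u * Polynomial.X + Polynomial.C v :=
    ⟨_, _, Polynomial.eq_X_add_C_of_natDegree_le_one hdeg⟩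
  rw [huv] at hmodz
  simp only [map_add, map_mul, Polynomial.aeval_X, Polynomial.aeval_C] at hmodz
  have hrel : (u : ℂ) * z + v = 0 := by simpa using hmodz
  have hrnot : u = 0 := by
    by_contra hu
    have huC : (u : ℂ) ≠ 0 := by exact_mod_cast hu
    -- `z` is rational, hence `r` is rational
    have hfC : (f : ℂ) ≠ 0 := by exact_mod_cast h.fpos.ne'
    have h1 : z = -(v : ℂ) / u := by
      field_simp
      linear_combination hrel
    have h2 : r = ((2 * a * (-v / u) + b) / f : ℚ) := by
      have h3 : z * (2 * a) = -(b : ℂ) + f * r := by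
        rw [hz]; unfold root; field_simp
      push_cast
      rw [← h1]
      field_simp
      linear_combination -h3
    set t : ℚ := (2 * a * (-v / u) + b) / f with ht
    have h3 : (t : ℚ) ^ 2 = D := by
      have : ((t ^ 2 : ℚ) : ℂ) = ((D : ℚ) : ℂ) := by
        push_cast
        rw [← h2, hr]
      exact_mod_cast this
    have h4 : t.num ^ 2 = D * (t.den : ℤ) ^ 2 := by
      have h5 : (t.num : ℚ) = t * t.den := (Rat.mul_den_eq_num t).symm
      have : (t.num : ℚ) ^ 2 = D * (t.den : ℚ) ^ 2 := by rw [h5, mul_pow, h3]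
      exact_mod_cast this
    exact not_sq h.sq h.D1 t.num t.den (by exact_mod_cast t.den_nz) h4
  have hv : v = 0 := by
    rw [hrnot] at hrel
    have : (v : ℂ) = 0 := by simpa using hrel
    exact_mod_cast this
  rw [hrnot, hv] at huv
  have : q % g = 0 := by rw [huv]; simp
  exact (EuclideanDomain.mod_eq_zero).1 this

/-- **The fibres.** -/
theorem fibre {d : ℕ} (hd : 1 ≤ d) (T M : ℕ) (hT : 1 ≤ T) {a b e f D : ℤ} (h : Quad a b e f D)
    (hM1 : M ≤ 2 * sz a b e) (hM2 : sz a b e ≤ M) (x : ℤ√D)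
    (A : Finset (Fin (d + 1) → ℤ)) (hA : ∀ c ∈ A, (∀ i, |c i| ≤ T) ∧ xi c a b f D = x) :
    (#A : ℝ) ≤ (2 ^ (d + 6) * (d + 1) * max 1 ((T : ℝ) / M)) ^ (d - 1) := by
  classical
  obtain ⟨r, hr⟩ := exists_sqrt D
  have hsz1 : 1 ≤ sz a b e := by
    have := (le_sz a b e).1
    have h2 := Int.one_le_abs h.a0
    omega
  have hM0 : 0 < M := by omega
  have hMr : (0 : ℝ) < M := by exact_mod_cast hM0
  have hTr : (1 : ℝ) ≤ T := by exact_mod_cast hT
  rcases A.eq_empty_or_nonempty with h0 | ⟨c0, hc0⟩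
  · subst h0
    simp only [card_empty, Nat.cast_zero]
    positivity
  -- the quotients
  have key : ∀ c : Fin (d + 1) → ℤ, ∃ q : Polynomial ℤ, c ∈ A → P c - P c0 = G a b e * q := by
    intro c
    by_cases hc : c ∈ A
    · have h1 := same_value c c0 h (by rw [(hA c hc).2, (hA c0 hc0).2]) r hr
      rw [← P_sub] at h1
      obtain ⟨q, hq⟩ := G_dvd h r hr _ h1
      exact ⟨q, fun _ => hq⟩
    · exact ⟨0, fun h => absurd h hc⟩
  choose q hq using key
  have hG0 : G a b e ≠ 0 := by
    intro h0
    have := G_natDegree a b e h.a0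
    rw [h0] at this
    simp at this
  have hqdeg : ∀ c ∈ A, (q c).natDegree ≤ d - 2 ∧ (d < 2 → q c = 0) := by
    intro c hc
    by_cases hq0 : q c = 0
    · rw [hq0]; simp
    have h1 : (P c - P c0).natDegree ≤ d := by rw [P_sub]; exact P_deg _
    rw [hq c hc, Polynomial.natDegree_mul hG0 hq0, G_natDegree a b e h.a0] at h1
    exact ⟨by omega, fun h2 => by omega⟩
  -- the case of small degree
  rcases Nat.lt_or_ge d 2 with hd2 | hd2
  · have h1 : #A ≤ 1 := by
      rw [card_le_one]
      have h2 : ∀ c ∈ A, c = c0 := by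
        intro c hc
        have h3 := hq c hc
        rw [(hqdeg c hc).2 hd2, mul_zero, sub_eq_zero] at h3
        exact P_inj h3
      intro c hc c' hc'
      rw [h2 c hc, h2 c' hc']
    have h2 : d - 1 = 0 := by omega
    rw [h2, pow_zero]
    exact_mod_cast h1
  -- the coefficients of the quotients
  set K : ℝ := 2 ^ (d + 4) * (d + 1) * T / M with hK
  have hK0 : 0 < K := by positivity
  have hcoef : ∀ c ∈ A, ∀ j, j ≤ d - 2 → |((q c).coeff j : ℝ)| ≤ K := by
    intro c hc j hj
    -- Gelfond's inequality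
    have hW : WBd 1 1 (2 + (d - 2)) (2 * T) (G a b e * q c) := by
      rw [← hq c hc, P_sub]
      constructor
      · intro i _
        rw [P_coeff]
        simp only [Nat.cast_one, one_pow, mul_one]
        split_ifs with hi
        · rw [Pi.sub_apply]
          have h1 : |((c ⟨i, hi⟩ : ℤ) : ℝ)| ≤ T := by exact_mod_cast (hA c hc).1 ⟨i, hi⟩
          have h2 : |((c0 ⟨i, hi⟩ : ℤ) : ℝ)| ≤ T := by exact_mod_cast (hA c0 hc0).1 ⟨i, hi⟩
          push_cast
          exact (abs_sub _ _).trans (by linarith)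
        · simp only [Int.cast_zero, abs_zero]; positivity
      · intro i hi
        rw [P_coeff, dif_neg (by omega)]
    have hgel : ∀ i, i ≤ 2 → |((G a b e).coeff i : ℝ)| * |((q c).coeff j : ℝ)| ≤
        2 ^ (d + 1) * (d + 1) * T := by
      intro i hi
      have h1 := gelfond 1 1 le_rfl le_rfl 2 (d - 2) (2 * T) (G a b e) (q c)
        (G_natDegree a b e h.a0).le (hqdeg c hc).1 hW i j hi hj
      simp only [Nat.cast_one, one_pow, mul_one] at h1
      have h2 : 2 + (d - 2) = d := by omega
      rw [h2] at h1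
      refine h1.trans (le_of_eq ?_)
      ring
    have hbig : ∃ i, i ≤ 2 ∧ |((G a b e).coeff i : ℝ)| = (sz a b e : ℝ) := by
      have h1 : sz a b e = a.natAbs ∨ sz a b e = b.natAbs ∨ sz a b e = e.natAbs := by
        unfold sz; omega
      rcases h1 with h1 | h1 | h1
      · refine ⟨2, le_rfl, ?_⟩
        rw [G_coeff]
        norm_num
        rw [h1, Nat.cast_natAbs, Int.cast_abs]
      · refine ⟨1, by norm_num, ?_⟩
        rw [G_coeff]
        norm_num
        rw [h1, Nat.cast_natAbs, Int.cast_abs]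
      · refine ⟨0, by norm_num, ?_⟩
        rw [G_coeff]
        norm_num
        rw [h1, Nat.cast_natAbs, Int.cast_abs]
    obtain ⟨i, hi, hie⟩ := hbig
    have h1 := hgel i hi
    rw [hie] at h1
    have h2 : (M : ℝ) ≤ 2 * (sz a b e : ℝ) := by exact_mod_cast hM1
    rw [hK, le_div_iff₀ hMr]
    calc |((q c).coeff j : ℝ)| * M ≤ |((q c).coeff j : ℝ)| * (2 * (sz a b e : ℝ)) :=
          mul_le_mul_of_nonneg_left h2 (abs_nonneg _)
      _ = 2 * ((sz a b e : ℝ) * |((q c).coeff j : ℝ)|) := by ring
      _ ≤ 2 * (2 ^ (d + 1) * (d + 1) * T) := mul_le_mul_of_nonneg_left h1 (by norm_num)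
      _ ≤ 2 ^ (d + 4) * (d + 1) * T := by
          have h5 : (0 : ℝ) ≤ 2 ^ (d + 1) * (d + 1) * T := by positivity
          have h6 : (2 : ℝ) ^ (d + 4) * (d + 1) * T = 8 * (2 ^ (d + 1) * (d + 1) * T) := by ring
          rw [h6]
          linarith
  let X : ℕ := ⌊K⌋₊
  have h1 : #A ≤ #(Fintype.piFinset (fun _ : Fin (d - 1) => Icc (-(X : ℤ)) X)) := by
    refine card_le_card_of_injOn (fun c j => (q c).coeff j) ?_ ?_
    · intro c hc
      rw [mem_coe] at hc
      rw [mem_coe, Fintype.mem_piFinset]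
      intro j
      rw [mem_Icc, ← abs_le]
      have h2 := hcoef c hc j (by have := j.2; omega)
      rw [Int.abs_eq_natAbs]
      have h3 : ((q c).coeff (j : ℕ)).natAbs ≤ X := by
        refine Nat.le_floor ?_
        rw [Nat.cast_natAbs, Int.cast_abs]
        exact h2
      exact_mod_cast h3
    · intro c hc c' hc' hcc
      rw [mem_coe] at hc hc'
      have h5 : q c = q c' := by
        refine Polynomial.ext (fun j => ?_)
        rcases Nat.lt_or_ge j (d - 1) with hj | hj
        · exact congrFun hcc ⟨j, hj⟩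
        · rw [Polynomial.coeff_eq_zero_of_natDegree_lt (by have := (hqdeg c hc).1; omega),
            Polynomial.coeff_eq_zero_of_natDegree_lt (by have := (hqdeg c' hc').1; omega)]
      have h6 : P c - P c0 = P c' - P c0 := by rw [hq c hc, hq c' hc', h5]
      exact P_inj (sub_left_injective h6)
  have h2 : (#(Fintype.piFinset (fun _ : Fin (d - 1) => Icc (-(X : ℤ)) X)) : ℝ) ≤
      (2 ^ (d + 6) * (d + 1) * max 1 ((T : ℝ) / M)) ^ (d - 1) := by
    rw [Fintype.card_piFinset, prod_const, card_univ, Fintype.card_fin, Int.card_Icc]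
    push_cast
    have h3 : ((((X : ℤ) + 1 - -(X : ℤ)).toNat : ℕ) : ℝ) = 2 * (X : ℝ) + 1 := by
      have : ((X : ℤ) + 1 - -(X : ℤ)).toNat = 2 * X + 1 := by omega
      rw [this]
      push_cast
      ring
    rw [h3]
    refine pow_le_pow_left₀ (by positivity) ?_ _
    have h4 : (X : ℝ) ≤ K := Nat.floor_le hK0.le
    set m : ℝ := max 1 ((T : ℝ) / M) with hm
    have hm1 : 1 ≤ m := le_max_left _ _
    have hm2 : (T : ℝ) / M ≤ m := le_max_right _ _
    have h5 : K ≤ 2 ^ (d + 4) * ((d : ℝ) + 1) * m := by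
      have : K = 2 ^ (d + 4) * ((d : ℝ) + 1) * (T / M) := by rw [hK]; ring
      rw [this]
      exact mul_le_mul_of_nonneg_left hm2 (by positivity)
    have h7 : (1 : ℝ) ≤ 2 ^ (d + 4) * (d + 1) * m := by
      have h8 : (1 : ℝ) ≤ 2 ^ (d + 4) := one_le_pow₀ (by norm_num)
      have h9 : (1 : ℝ) ≤ (d : ℝ) + 1 := by
        have : (0 : ℝ) ≤ d := Nat.cast_nonneg _
        linarith
      exact one_le_mul_of_one_le_of_one_le (one_le_mul_of_one_le_of_one_le h8 h9) hm1
    have h6 : 2 ^ (d + 6) * ((d : ℝ) + 1) * m = 4 * (2 ^ (d + 4) * ((d : ℝ) + 1) * m) := by ring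
    rw [h6]
    linarith
  refine le_trans ?_ h2
  exact_mod_cast h1

end Pool.Agent.Q256.T3
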