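import Mathlib
import Pool.Agent.Q256.T3.Fib
import Pool.Agent.Q256.T3.Dat

set_option autoImplicit false

/-!
Counting the forms with a bad value at some quadratic point.
-/

namespace Pool.Agent.Q256.T3

open Finset
open Pool.Agent.H813R3.Voj (rho rho_pos)

theorem abs_disc_le {a b e f D : ℤ} (h : Quad a b e f D) (M : ℕ) (hM : sz a b e ≤ M) :
    |D| ≤ ((5 * M ^ 2 : ℕ) : ℤ) := by
  obtain ⟨h1, h2, h3⟩ := le_sz a b e
  have hM' : (sz a b e : ℤ) ≤ M := by exact_mod_cast hM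
  have ha := h1.trans hM'
  have hb := h2.trans hM'
  have he := h3.trans hM'
  have hM0 : (0 : ℤ) ≤ M := Int.natCast_nonneg _
  have h4 : |f ^ 2 * D| ≤ 5 * (M : ℤ) ^ 2 := by
    rw [← h.disc]
    have e1 : |b ^ 2| ≤ (M : ℤ) ^ 2 := by
      rw [abs_pow]; exact pow_le_pow_left₀ (abs_nonneg _) hb 2
    have e2 : |4 * a * e| ≤ 4 * (M : ℤ) ^ 2 := by
      rw [abs_mul, abs_mul, abs_of_pos (by norm_num : (0 : ℤ) < 4)]
      have := mul_le_mul ha he (abs_nonneg _) hM0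
      nlinarith
    exact (abs_sub _ _).trans (by linarith)
  rw [abs_mul, abs_of_nonneg (sq_nonneg f)] at h4
  push_cast
  have h5 : 1 ≤ f ^ 2 := by have := h.fpos; nlinarith
  have h6 := abs_nonneg D
  nlinarith

/-- **The count in a dyadic range.** -/
theorem dyadic (hroot : ∀ η : ℝ, 0 < η → RootCount η) {d : ℕ} (hd : 1 ≤ d) (S : Finset ℕ)
    (η : ℝ) (hη : 0 < η) : ∃ C : ℝ, 0 < C ∧ ∀ (T M : ℕ) (R : ℝ) (A : Finset (Fin (d + 1) → ℤ)),
      1 ≤ T → 1 ≤ M → 0 ≤ R →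
      (∀ c ∈ A, (∀ i, |c i| ≤ T) ∧ ∃ a b e f D : ℤ, Quad a b e f D ∧ sz a b e ≤ M ∧
        M ≤ 2 * sz a b e ∧ (xi c a b f D).im ≠ 0 ∧ Res c a b e ≠ 0 ∧
        (rho S (Res c a b e) : ℝ) * |(D : ℝ)| ≤ R) →
      (#A : ℝ) ≤ C * R * M * (max 1 ((T : ℝ) / M)) ^ (d - 1) * ((T * M : ℕ) : ℝ) ^ η := by
  classical
  set t : ℝ := η / (3 * d + 4) with ht
  have ht0 : 0 < t := by positivity
  obtain ⟨C, hC, hdata⟩ := card_data hroot d S t ht0
  set c0 : ℝ := (((d : ℝ) + 1) * 4 ^ d) ^ 3 with hc0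
  have hc00 : 0 < c0 := by positivity
  refine ⟨(2 ^ (d + 6) * (d + 1)) ^ (d - 1) * C * c0 ^ t, by positivity,
    fun T M R A hT hM hR hA => ?_⟩
  set L : ℕ := T * M with hL
  have hTL : T ≤ L := Nat.le_mul_of_pos_right T hM
  have hML : M ≤ L := Nat.le_mul_of_pos_left M hT
  have hL1 : 1 ≤ L := hT.trans hTL
  set B : ℕ := (d + 1) * L * (4 * L) ^ d with hB
  have hB1 : 1 ≤ B := Nat.succ_le_of_lt (by positivity)
  have hX1 : 1 ≤ B ^ 2 := Nat.one_le_pow _ _ hB1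
  -- the data
  have key : ∀ c : Fin (d + 1) → ℤ, ∃ a b e f D : ℤ, c ∈ A → Quad a b e f D ∧ sz a b e ≤ M ∧
        M ≤ 2 * sz a b e ∧ (xi c a b f D).im ≠ 0 ∧ Res c a b e ≠ 0 ∧
        (rho S (Res c a b e) : ℝ) * |(D : ℝ)| ≤ R := by
    intro c
    by_cases hc : c ∈ A
    · obtain ⟨a, b, e, f, D, h⟩ := (hA c hc).2
      exact ⟨a, b, e, f, D, fun _ => h⟩
    · exact ⟨0, 0, 0, 0, 0, fun h => absurd h hc⟩
  choose a b e f D hq using key
  let Φ : (Fin (d + 1) → ℤ) → (Σ (_ : ℤ) (_ : ℤ) (_ : ℤ) (_ : ℤ × ℤ) (_ : ℤ), ℤ) := fun c =>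
    ⟨D c, Res c (a c) (b c) (e c), a c,
      ((xi c (a c) (b c) (f c) (D c)).re, (xi c (a c) (b c) (f c) (D c)).im), f c, b c⟩
  have hmaps : ∀ c ∈ A, Φ c ∈ Data d S M (B ^ 2) B R := by
    intro c hc
    obtain ⟨hQ, hs1, hs2, him, hres, hrho⟩ := hq c hc
    obtain ⟨h1, h2, h3⟩ := le_sz (a c) (b c) (e c)
    have hsM : (sz (a c) (b c) (e c) : ℤ) ≤ M := by exact_mod_cast hs1
    have hsL : (M : ℤ) ≤ L := by exact_mod_cast hML
    have hbd := bounds c hQ L (fun i => ((hA c hc).1 i).trans (by exact_mod_cast hTL))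
      ((h1.trans hsM).trans hsL) ((h2.trans hsM).trans hsL) ((h3.trans hsM).trans hsL)
    unfold Data
    rw [mem_sigma, mem_sigma, mem_sigma, mem_sigma, mem_sigma]
    refine ⟨?_, ?_, ?_, ?_, ?_, ?_⟩
    · change D c ∈ DS M
      rw [DS, mem_filter, mem_Icc, ← abs_le]
      exact ⟨abs_disc_le hQ M hs1, hQ.sq, hQ.D1⟩
    · change Res c (a c) (b c) (e c) ∈ mS S (B ^ 2) R (D c)
      rw [mS, mem_filter, mem_Icc, ← abs_le]
      refine ⟨?_, hres, hrho⟩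
      have := hbd.2.2
      push_cast
      push_cast at this
      exact this
    · change a c ∈ aS M
      rw [aS, mem_filter, mem_Icc, ← abs_le]
      exact ⟨h1.trans hsM, hQ.a0⟩
    · change ((xi c (a c) (b c) (f c) (D c)).re, (xi c (a c) (b c) (f c) (D c)).im) ∈
        xS (D c) ((4 * a c) ^ d * Res c (a c) (b c) (e c)) B
      rw [xS, mem_filter, mem_product, mem_Icc, mem_Icc, ← abs_le, ← abs_le]
      exact ⟨⟨hbd.1, hbd.2.1⟩, norm_eq c hQ, him⟩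
    · change f c ∈ fS (xi c (a c) (b c) (f c) (D c)).im
      rw [fS, mem_image]
      refine ⟨(f c).toNat, ?_, Int.toNat_of_nonneg hQ.fpos.le⟩
      rw [Nat.mem_divisors]
      refine ⟨?_, Int.natAbs_ne_zero.2 him⟩
      rw [← Int.natCast_dvd, Int.toNat_of_nonneg hQ.fpos.le]
      exact im_dvd c (a c) (b c) (f c) (D c)
    · change b c ∈ bS M (a c) (f c ^ 2 * D c)
      rw [bS, mem_filter, mem_Icc, ← abs_le]
      refine ⟨h2.trans hsM, ⟨4 * e c, ?_⟩⟩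
      have := hQ.disc
      linarith
  -- the fibres
  set F : ℝ := (2 ^ (d + 6) * (d + 1) * max 1 ((T : ℝ) / M)) ^ (d - 1) with hF
  have hm0 : 0 < max 1 ((T : ℝ) / M) := lt_of_lt_of_le one_pos (le_max_left _ _)
  have hF0 : 0 ≤ F := by positivity
  have hfib : ∀ y ∈ Data d S M (B ^ 2) B R, #{c ∈ A | Φ c = y} ≤ ⌊F⌋₊ := by
    intro y _
    refine Nat.le_floor ?_
    rcases (A.filter (fun c => Φ c = y)).eq_empty_or_nonempty with h0 | ⟨c1, hc1⟩
    · rw [h0, card_empty]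
      exact_mod_cast hF0
    · rw [mem_filter] at hc1
      obtain ⟨hc1A, hc1y⟩ := hc1
      obtain ⟨hQ, hs1, hs2, him, hres, hrho⟩ := hq c1 hc1A
      refine fibre hd T M hT hQ hs2 hs1 (xi c1 (a c1) (b c1) (f c1) (D c1)) _ ?_
      intro c hc
      rw [mem_filter] at hc
      refine ⟨(hA c hc.1).1, ?_⟩
      have hcy : Φ c = Φ c1 := hc.2.trans hc1y.symm
      have k1 : D c = D c1 := congrArg (fun x => x.1) hcy
      have k2 : a c = a c1 := congrArg (fun x => x.2.2.1) hcy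
      have k3 : (xi c (a c) (b c) (f c) (D c)).re = (xi c1 (a c1) (b c1) (f c1) (D c1)).re :=
        congrArg (fun x => x.2.2.2.1.1) hcy
      have k4 : (xi c (a c) (b c) (f c) (D c)).im = (xi c1 (a c1) (b c1) (f c1) (D c1)).im :=
        congrArg (fun x => x.2.2.2.1.2) hcy
      have k5 : f c = f c1 := congrArg (fun x => x.2.2.2.2.1) hcy
      have k6 : b c = b c1 := congrArg (fun x => x.2.2.2.2.2) hcy
      rw [k1, k2, k5, k6] at k3 k4
      exact Zsqrtd.ext k3 k4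
  have h1 : #A ≤ ⌊F⌋₊ * #(Data d S M (B ^ 2) B R) :=
    card_le_mul_card_image_of_maps_to hmaps _ hfib
  have h2 : (#A : ℝ) ≤ F * #(Data d S M (B ^ 2) B R) := by
    have h3 : (#A : ℝ) ≤ (⌊F⌋₊ : ℝ) * #(Data d S M (B ^ 2) B R) := by exact_mod_cast h1
    exact h3.trans (mul_le_mul_of_nonneg_right (Nat.floor_le hF0) (Nat.cast_nonneg _))
  refine h2.trans ((mul_le_mul_of_nonneg_left (hdata M (B ^ 2) B R hM hX1 hB1 hR) hF0).trans ?_)
  have hLr : (1 : ℝ) ≤ (L : ℝ) := by exact_mod_cast hL1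
  have hbase : ((M * B ^ 2 * B : ℕ) : ℝ) ≤ c0 * (L : ℝ) ^ (3 * d + 4) := by
    have e1 : (M : ℝ) ≤ L := by exact_mod_cast hML
    rw [hB]
    push_cast
    calc (M : ℝ) * ((d + 1) * L * (4 * L) ^ d) ^ 2 * ((d + 1) * L * (4 * L) ^ d)
        ≤ (L : ℝ) * ((d + 1) * L * (4 * L) ^ d) ^ 2 * ((d + 1) * L * (4 * L) ^ d) := by
          refine mul_le_mul_of_nonneg_right (mul_le_mul_of_nonneg_right e1 (by positivity))
            (by positivity)
      _ = c0 * (L : ℝ) ^ (3 * d + 4) := by rw [hc0]; ring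
  have hpow : ((M * B ^ 2 * B : ℕ) : ℝ) ^ t ≤ c0 ^ t * (L : ℝ) ^ η := by
    refine (Real.rpow_le_rpow (Nat.cast_nonneg _) hbase ht0.le).trans (le_of_eq ?_)
    rw [Real.mul_rpow hc00.le (by positivity), ← Real.rpow_natCast (L : ℝ) (3 * d + 4),
      ← Real.rpow_mul (by positivity)]
    congr 2
    rw [ht]
    push_cast
    field_simp
  calc F * (C * R * M * ((M * B ^ 2 * B : ℕ) : ℝ) ^ t)
      ≤ F * (C * R * M * (c0 ^ t * (L : ℝ) ^ η)) := by
        refine mul_le_mul_of_nonneg_left (mul_le_mul_of_nonneg_left hpow (by positivity)) hF0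
    _ = _ := by
        rw [hF, mul_pow]
        ring

end Pool.Agent.Q256.T3
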