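import Mathlib
import Pool.Agent.Q256.T3.Cnt

set_option autoImplicit false

/-!
All sizes of quadratic points.
-/

namespace Pool.Agent.Q256.T3

open Finset
open Pool.Agent.H813R3.Voj (rho rho_pos)

/-- the weight of a quadratic point. -/
noncomputable def wt (d T : ℕ) (s : ℕ) : ℝ := s * (max 1 ((T : ℝ) / s)) ^ (d - 1)

/-- **All sizes.** -/
theorem allM (hroot : ∀ η : ℝ, 0 < η → RootCount η) {d : ℕ} (hd : 1 ≤ d) (S : Finset ℕ)
    (η : ℝ) (hη : 0 < η) : ∃ C : ℝ, 0 < C ∧ ∀ (T Y : ℕ) (W : ℝ) (A : Finset (Fin (d + 1) → ℤ)),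
      1 ≤ T → 1 ≤ Y → 0 ≤ W →
      (∀ c ∈ A, (∀ i, |c i| ≤ T) ∧ ∃ a b e f D : ℤ, Quad a b e f D ∧ sz a b e ≤ Y ∧
        (xi c a b f D).im ≠ 0 ∧ Res c a b e ≠ 0 ∧
        (rho S (Res c a b e) : ℝ) * |(D : ℝ)| * wt d T (sz a b e) ≤ W) →
      (#A : ℝ) ≤ C * W * ((T * Y : ℕ) : ℝ) ^ η := by
  classical
  set t : ℝ := η / 2 with ht
  have ht0 : 0 < t := by positivity
  obtain ⟨C, hC, hdy⟩ := dyadic hroot hd S t ht0
  have hl2 : 0 < Real.log 2 := Real.log_pos (by norm_num)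
  refine ⟨(1 / t / Real.log 2 + 1) * (2 * C * 2 ^ t), by positivity, fun T Y W A hT hY hW hA => ?_⟩
  have hTr : (1 : ℝ) ≤ T := by exact_mod_cast hT
  have hYr : (1 : ℝ) ≤ Y := by exact_mod_cast hY
  set L : ℝ := ((T * Y : ℕ) : ℝ) with hL
  have hLe : L = T * Y := by rw [hL]; push_cast; ring
  have hYL : (Y : ℝ) ≤ L := by rw [hLe]; exact le_mul_of_one_le_left (by linarith) hTr
  have hL1 : 1 ≤ L := hYr.trans hYL
  -- the data
  have key : ∀ c : Fin (d + 1) → ℤ, ∃ a b e f D : ℤ, c ∈ A → Quad a b e f D ∧ sz a b e ≤ Y ∧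
        (xi c a b f D).im ≠ 0 ∧ Res c a b e ≠ 0 ∧
        (rho S (Res c a b e) : ℝ) * |(D : ℝ)| * wt d T (sz a b e) ≤ W := by
    intro c
    by_cases hc : c ∈ A
    · obtain ⟨a, b, e, f, D, h⟩ := (hA c hc).2
      exact ⟨a, b, e, f, D, fun _ => h⟩
    · exact ⟨0, 0, 0, 0, 0, fun h => absurd h hc⟩
  choose a b e f D hq using key
  let k : (Fin (d + 1) → ℤ) → ℕ := fun c => Nat.log 2 (sz (a c) (b c) (e c))
  have hmaps : ∀ c ∈ A, k c ∈ range (Nat.log 2 Y + 1) := by
    intro c hc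
    rw [mem_range, Nat.lt_succ_iff]
    exact Nat.log_mono_right (hq c hc).2.1
  have hpart : ∀ j ∈ range (Nat.log 2 Y + 1),
      ((#(A.filter (fun c => k c = j)) : ℕ) : ℝ) ≤ 2 * C * 2 ^ t * W * L ^ t := by
    intro j hj
    rw [mem_range, Nat.lt_succ_iff] at hj
    set M : ℕ := 2 ^ (j + 1) with hM
    have hM1 : 1 ≤ M := Nat.one_le_two_pow
    have hMr : (0 : ℝ) < M := by exact_mod_cast hM1
    set m : ℝ := max 1 ((T : ℝ) / M) with hm
    have hm0 : 0 < m := lt_of_lt_of_le one_pos (le_max_left _ _)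
    have h1 := hdy T M (2 * W / (M * m ^ (d - 1))) (A.filter (fun c => k c = j)) hT hM1
      (by positivity) (by
        intro c hc
        rw [mem_filter] at hc
        obtain ⟨hcA, hck⟩ := hc
        obtain ⟨hQ, hs1, him, hres, hrho⟩ := hq c hcA
        have hs0 : sz (a c) (b c) (e c) ≠ 0 := by
          have h1 := (le_sz (a c) (b c) (e c)).1
          have h2 := Int.one_le_abs hQ.a0
          omega
        have hu : sz (a c) (b c) (e c) < M := by
          rw [hM, ← hck]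
          exact Nat.lt_pow_succ_log_self (by norm_num) _
        have hl : M ≤ 2 * sz (a c) (b c) (e c) := by
          rw [hM, pow_succ, mul_comm, ← hck]
          exact Nat.mul_le_mul_left _ (Nat.pow_log_le_self 2 hs0)
        refine ⟨(hA c hcA).1, a c, b c, e c, f c, D c, hQ, hu.le, hl, him, hres, ?_⟩
        rw [le_div_iff₀ (by positivity)]
        have hsr : (0 : ℝ) < sz (a c) (b c) (e c) := by exact_mod_cast Nat.pos_of_ne_zero hs0
        have hur : ((sz (a c) (b c) (e c) : ℕ) : ℝ) ≤ M := by exact_mod_cast hu.le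
        have hlr : (M : ℝ) ≤ 2 * sz (a c) (b c) (e c) := by exact_mod_cast hl
        have e1 : m ≤ max 1 ((T : ℝ) / sz (a c) (b c) (e c)) := by
          rw [hm]
          exact max_le_max le_rfl (div_le_div_of_nonneg_left (by linarith) hsr hur)
        have e2 : m ^ (d - 1) ≤ (max 1 ((T : ℝ) / sz (a c) (b c) (e c))) ^ (d - 1) :=
          pow_le_pow_left₀ hm0.le e1 _
        calc (rho S (Res c (a c) (b c) (e c)) : ℝ) * |(D c : ℝ)| * (M * m ^ (d - 1))
            ≤ (rho S (Res c (a c) (b c) (e c)) : ℝ) * |(D c : ℝ)| *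
              ((2 * sz (a c) (b c) (e c)) *
                (max 1 ((T : ℝ) / sz (a c) (b c) (e c))) ^ (d - 1)) := by
              refine mul_le_mul_of_nonneg_left ?_ (by positivity)
              exact mul_le_mul hlr e2 (by positivity) (by positivity)
          _ = 2 * ((rho S (Res c (a c) (b c) (e c)) : ℝ) * |(D c : ℝ)| *
              wt d T (sz (a c) (b c) (e c))) := by unfold wt; ring
          _ ≤ 2 * W := by linarith)
    refine h1.trans ?_
    have hMY : (M : ℝ) ≤ 2 * Y := by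
      have h2 : 2 ^ j ≤ Y := (Nat.pow_le_pow_right (by norm_num) hj).trans
        (Nat.pow_log_le_self 2 (by omega))
      have h3 : M ≤ 2 * Y := by rw [hM, pow_succ]; omega
      exact_mod_cast h3
    have hTM : ((T * M : ℕ) : ℝ) ^ t ≤ 2 ^ t * L ^ t := by
      rw [← Real.mul_rpow (by norm_num) (by linarith)]
      refine Real.rpow_le_rpow (Nat.cast_nonneg _) ?_ ht0.le
      push_cast
      rw [hLe]
      nlinarith
    calc C * (2 * W / (M * m ^ (d - 1))) * M * m ^ (d - 1) * ((T * M : ℕ) : ℝ) ^ t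
        = 2 * C * W * ((T * M : ℕ) : ℝ) ^ t := by field_simp
      _ ≤ 2 * C * W * (2 ^ t * L ^ t) := mul_le_mul_of_nonneg_left hTM (by positivity)
      _ = _ := by ring
  have hsum : (#A : ℝ) = ∑ j ∈ range (Nat.log 2 Y + 1),
      ((#(A.filter (fun c => k c = j)) : ℕ) : ℝ) := by
    rw [card_eq_sum_card_fiberwise hmaps]
    push_cast
    rfl
  rw [hsum]
  have h2 := sum_le_card_nsmul _ _ _ hpart
  rw [card_range, nsmul_eq_mul] at h2
  refine h2.trans ?_
  -- the logarithm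
  have hlog : ((Nat.log 2 Y + 1 : ℕ) : ℝ) ≤ (1 / t / Real.log 2 + 1) * L ^ t := by
    have h3 : 2 ^ Nat.log 2 Y ≤ Y := Nat.pow_log_le_self 2 (by omega)
    have h4 : (Nat.log 2 Y : ℝ) * Real.log 2 ≤ Real.log Y := by
      rw [← Real.log_pow]
      exact Real.log_le_log (by positivity) (by exact_mod_cast h3)
    have h5 : Real.log Y ≤ (Y : ℝ) ^ t / t := Real.log_le_rpow_div (by linarith) ht0
    have h6 : (Y : ℝ) ^ t ≤ L ^ t := Real.rpow_le_rpow (by linarith) hYL ht0.le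
    have h7 : 1 ≤ L ^ t := Real.one_le_rpow hL1 ht0.le
    have h8 : (Nat.log 2 Y : ℝ) ≤ 1 / t / Real.log 2 * L ^ t := by
      have h9 : (Nat.log 2 Y : ℝ) ≤ (Y : ℝ) ^ t / t / Real.log 2 := by
        rw [le_div_iff₀ hl2]; linarith
      refine h9.trans ?_
      rw [div_div, div_div, one_div, div_eq_inv_mul]
      exact mul_le_mul_of_nonneg_left h6 (by positivity)
    push_cast
    linarith
  have hLη : L ^ η = L ^ t * L ^ t := by
    rw [← Real.rpow_add (by linarith)]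
    congr 1
    rw [ht]; ring
  rw [hLη]
  calc ((Nat.log 2 Y + 1 : ℕ) : ℝ) * (2 * C * 2 ^ t * W * L ^ t)
      ≤ ((1 / t / Real.log 2 + 1) * L ^ t) * (2 * C * 2 ^ t * W * L ^ t) :=
        mul_le_mul_of_nonneg_right hlog (by positivity)
    _ = _ := by ring

end Pool.Agent.Q256.T3
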