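import Mathlib
import Pool.Agent.Q256.T3.All

set_option autoImplicit false

/-!
Changes of coordinates of the projective line.
-/

namespace Pool.Agent.Q256.T3

open Finset
open Pool.Agent.H813R3.Voj (rho rho_pos)

/-- the form in the coordinate `1 / (x - j)`. -/
noncomputable def ch {d : ℕ} (j : ℕ) (c : Fin (d + 1) → ℤ) : Fin (d + 1) → ℤ :=
  fun i => (Polynomial.taylor (j : ℤ) (P c)).coeff (d - i)

theorem taylor_deg {d : ℕ} (j : ℕ) (c : Fin (d + 1) → ℤ) :
    (Polynomial.taylor (j : ℤ) (P c)).natDegree ≤ d := by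
  rw [Polynomial.natDegree_taylor]; exact P_deg c

theorem ch_inj {d : ℕ} (j : ℕ) : Function.Injective (ch (d := d) j) := by
  intro c c' h
  have h1 : Polynomial.taylor (j : ℤ) (P c) = Polynomial.taylor (j : ℤ) (P c') := by
    refine Polynomial.ext (fun m => ?_)
    rcases Nat.lt_or_ge d m with hm | hm
    · rw [Polynomial.coeff_eq_zero_of_natDegree_lt (lt_of_le_of_lt (taylor_deg j c) hm),
        Polynomial.coeff_eq_zero_of_natDegree_lt (lt_of_le_of_lt (taylor_deg j c') hm)]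
    · have := congrFun h ⟨d - m, by omega⟩
      unfold ch at this
      simp only at this
      rw [Nat.sub_sub_self hm] at this
      exact this
  exact P_inj (Polynomial.taylor_injective _ h1)

theorem ch_bound {d : ℕ} (j : ℕ) (hj : j ≤ d) (c : Fin (d + 1) → ℤ) (T : ℕ) (hc : ∀ i, |c i| ≤ T)
    (i : Fin (d + 1)) : |ch j c i| ≤ (((d + 1) * ((d + 1) ^ d * 2 ^ d) * T : ℕ) : ℤ) := by
  unfold ch P
  rw [map_sum, Polynomial.finsetSum_coeff]
  refine (abs_sum_le_sum_abs _ _).trans ?_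
  have hterm : ∀ k ∈ (univ : Finset (Fin (d + 1))),
      |(Polynomial.taylor (j : ℤ) (Polynomial.C (c k) * Polynomial.X ^ (k : ℕ))).coeff (d - i)| ≤
        ((d : ℤ) + 1) ^ d * 2 ^ d * T := by
    intro k _
    rw [Polynomial.taylor_mul, Polynomial.taylor_C, Polynomial.taylor_pow, Polynomial.taylor_X,
      Polynomial.coeff_C_mul, Polynomial.coeff_X_add_C_pow, abs_mul, abs_mul]
    have hk : (k : ℕ) ≤ d := Nat.lt_succ_iff.1 k.2
    have e1 : |((j : ℤ)) ^ ((k : ℕ) - (d - i))| ≤ ((d : ℤ) + 1) ^ d := by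
      rw [abs_of_nonneg (by positivity)]
      calc (j : ℤ) ^ ((k : ℕ) - (d - i)) ≤ ((d : ℤ) + 1) ^ ((k : ℕ) - (d - i)) :=
            pow_le_pow_left₀ (by positivity) (by omega) _
        _ ≤ ((d : ℤ) + 1) ^ d := pow_le_pow_right₀ (by omega) (by omega)
    have e2 : |(((k : ℕ).choose (d - i) : ℕ) : ℤ)| ≤ 2 ^ d := by
      rw [abs_of_nonneg (by positivity)]
      have h1 : (k : ℕ).choose (d - i) ≤ 2 ^ (k : ℕ) := Nat.choose_le_two_pow _ _
      have h2 : (2 : ℕ) ^ (k : ℕ) ≤ 2 ^ d := Nat.pow_le_pow_right (by norm_num) hk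
      exact_mod_cast h1.trans h2
    calc |c k| * (|((j : ℤ)) ^ ((k : ℕ) - (d - i))| * |(((k : ℕ).choose (d - i) : ℕ) : ℤ)|)
        ≤ T * (((d : ℤ) + 1) ^ d * 2 ^ d) := by
          refine mul_le_mul (hc k) (mul_le_mul e1 e2 (abs_nonneg _) (by positivity))
            (by positivity) (by positivity)
      _ = _ := by ring
  refine (sum_le_sum hterm).trans (le_of_eq ?_)
  rw [sum_const, card_univ, Fintype.card_fin, nsmul_eq_mul]
  push_cast
  ring

/-- the value in the new coordinate. -/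
theorem ch_aeval {d : ℕ} (j : ℕ) (c : Fin (d + 1) → ℤ) (z w : ℂ) (hzw : z * w = 1) :
    Polynomial.aeval w (P (ch j c)) = w ^ d * Polynomial.aeval (z + j) (P c) := by
  have h1 : Polynomial.aeval (z + j) (P c) =
      Polynomial.aeval z (Polynomial.taylor (j : ℤ) (P c)) := by
    rw [Polynomial.taylor_apply, Polynomial.aeval_comp]
    congr 1
    simp
  rw [h1, Polynomial.aeval_eq_sum_range' (n := d + 1) (Nat.lt_succ_of_le (taylor_deg j c)), P_aeval]
  unfold ch
  rw [Fin.sum_univ_eq_sum_range (fun i => (((Polynomial.taylor (j : ℤ) (P c)).coeff (d - i) : ℤ) : ℂ)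
      * w ^ i), mul_sum, ← sum_range_reflect]
  refine sum_congr rfl (fun m hm => ?_)
  rw [mem_range, Nat.lt_succ_iff] at hm
  have e1 : d - (d + 1 - 1 - m) = m := by omega
  rw [e1, zsmul_eq_mul]
  have e2 : w ^ d = w ^ (d + 1 - 1 - m) * w ^ m := by
    rw [← pow_add]; congr 1; omega
  have e3 : w ^ m * z ^ m = 1 := by rw [← mul_pow, mul_comm w z, hzw, one_pow]
  calc _ = ((Polynomial.taylor (j : ℤ) (P c)).coeff m : ℂ) * w ^ (d + 1 - 1 - m) * (w ^ m * z ^ m) := by
        rw [e3, mul_one]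
    _ = _ := by rw [e2]; ring

theorem Quad.ch {a b e f D : ℤ} (h : Quad a b e f D) (j : ℤ) :
    Quad (a * j ^ 2 + b * j + e) (2 * a * j + b) a f D := by
  obtain ⟨x, y, z, h1⟩ := h.prim
  refine ⟨⟨z, y - z * j, x - z * j ^ 2 - (y - z * j) * (2 * j), by linear_combination h1⟩, ?_,
    h.fpos, h.sq, h.D1⟩
  have := h.disc
  linear_combination this

theorem root_ch {a b e f D : ℤ} (h : Quad a b e f D) (j : ℤ) (r : ℂ) (hr : r ^ 2 = D) :
    (root a b f (-r) - j) * root (a * j ^ 2 + b * j + e) (2 * a * j + b) f r = 1 := by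
  have ha : (a : ℂ) ≠ 0 := by exact_mod_cast h.a0
  have ha' : ((a * j ^ 2 + b * j + e : ℤ) : ℂ) ≠ 0 := by exact_mod_cast (h.ch j).a0
  have h1 : (b : ℂ) ^ 2 - 4 * a * e = f ^ 2 * D := by exact_mod_cast h.disc
  unfold root
  rw [mul_div_assoc', div_eq_one_iff_eq (mul_ne_zero two_ne_zero ha')]
  push_cast
  field_simp
  linear_combination h1 - (f : ℂ) ^ 2 * hr

theorem Res_ch {d : ℕ} (c : Fin (d + 1) → ℤ) {a b e f D : ℤ} (h : Quad a b e f D) (j : ℕ) :
    Res (ch j c) (a * (j : ℤ) ^ 2 + b * j + e) (2 * a * j + b) a = Res c a b e := by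
  obtain ⟨r, hr⟩ := exists_sqrt D
  have hQ := h.ch j
  have h1 := res_eq c a b e h.a0 _ _ (root_sum a b f h.a0 r) (root_prod h r hr)
  have h2 := res_eq (ch j c) _ _ _ hQ.a0 _ _ (root_sum _ (2 * a * j + b) f hQ.a0 r)
    (root_prod hQ r hr)
  have r1 := root_ch h j r hr
  have r2 := root_ch h j (-r) (neg_sq' hr)
  rw [neg_neg] at r2
  rw [ch_aeval j c _ _ r1, ch_aeval j c _ _ r2] at h2
  have e1 : root a b f (-r) - ((j : ℤ) : ℂ) + (j : ℂ) = root a b f (-r) := by push_cast; ring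
  have e2 : root a b f r - ((j : ℤ) : ℂ) + (j : ℂ) = root a b f r := by push_cast; ring
  rw [e1, e2] at h2
  have hp := root_prod hQ r hr
  have h3 : ((Res (ch j c) (a * (j : ℤ) ^ 2 + b * j + e) (2 * a * j + b) a : ℤ) : ℂ) =
      ((Res c a b e : ℤ) : ℂ) := by
    rw [h1, h2]
    set w := root (a * (j : ℤ) ^ 2 + b * j + e) (2 * a * j + b) f r with hw
    set w' := root (a * (j : ℤ) ^ 2 + b * j + e) (2 * a * j + b) f (-r) with hw'
    rw [← hp]
    ring
  exact_mod_cast h3

/-- some chart is good. -/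
theorem exists_chart {d : ℕ} (hd : 1 ≤ d) (c : Fin (d + 1) → ℤ) {a b e f D : ℤ}
    (h : Quad a b e f D) (hres : Res c a b e ≠ 0) (h0 : (xi c a b f D).im = 0) :
    ∃ j : ℕ, j ≤ d ∧ (xi (ch j c) (a * (j : ℤ) ^ 2 + b * j + e) (2 * a * j + b) f D).im ≠ 0 := by
  classical
  obtain ⟨r, hr⟩ := exists_sqrt D
  by_contra hcon
  push Not at hcon
  have hv : Polynomial.aeval (root a b f r) (P c) = Polynomial.aeval (root a b f (-r)) (P c) := by
    by_contra hne
    exact im_ne c h r hr hne h0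
  set v := Polynomial.aeval (root a b f r) (P c) with hvd
  have h1 := res_eq c a b e h.a0 _ _ (root_sum a b f h.a0 r) (root_prod h r hr)
  have hv0 : v ≠ 0 := by
    intro hv0
    rw [← hvd, hv0, zero_mul, mul_zero] at h1
    exact hres (by exact_mod_cast h1)
  set θ := root a b f r with hθ
  set θ' := root a b f (-r) with hθ'
  have hr0 : r ≠ 0 := by
    rintro rfl
    rw [zero_pow two_ne_zero] at hr
    exact h.D0 (by exact_mod_cast hr.symm)
  have hne : θ ≠ θ' := by
    intro h2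
    have haC : (a : ℂ) ≠ 0 := by exact_mod_cast h.a0
    have hfC : (f : ℂ) ≠ 0 := by exact_mod_cast h.fpos.ne'
    have h3 : (f : ℂ) * r = 0 := by
      rw [hθ, hθ'] at h2
      unfold root at h2
      field_simp at h2
      linear_combination (1 / 2 : ℂ) * h2
    exact (mul_ne_zero hfC hr0) h3
  have hch : ∀ j : ℕ, j ≤ d → θ' - j ≠ 0 ∧ θ - j ≠ 0 ∧ (θ - j) ^ d = (θ' - j) ^ d := by
    intro j hj
    have hQ := h.ch j
    have r1 := root_ch h j r hr
    have r2 := root_ch h j (-r) (neg_sq' hr)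
    rw [neg_neg] at r2
    rw [← hθ'] at r1
    rw [← hθ] at r2
    set w := root (a * (j : ℤ) ^ 2 + b * j + e) (2 * a * j + b) f r with hw
    set w' := root (a * (j : ℤ) ^ 2 + b * j + e) (2 * a * j + b) f (-r) with hw'
    have hval : Polynomial.aeval w (P (ch j c)) = Polynomial.aeval w' (P (ch j c)) := by
      by_contra hne'
      exact im_ne (ch j c) hQ r hr hne' (hcon j hj)
    have c1 := ch_aeval j c _ _ r1
    have c2 := ch_aeval j c _ _ r2
    have e1 : θ' - ((j : ℤ) : ℂ) + (j : ℂ) = θ' := by push_cast; ring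
    have e2 : θ - ((j : ℤ) : ℂ) + (j : ℂ) = θ := by push_cast; ring
    rw [e1, ← hv] at c1
    rw [e2, ← hvd] at c2
    rw [hval, c2] at c1
    have h3 : w' ^ d = w ^ d := mul_right_cancel₀ hv0 c1
    push_cast at r1 r2
    refine ⟨left_ne_zero_of_mul_eq_one r1, left_ne_zero_of_mul_eq_one r2, ?_⟩
    have h4 : (θ - j) ^ d * w' ^ d = 1 := by rw [← mul_pow, r2, one_pow]
    have h5 : (θ' - j) ^ d * w ^ d = 1 := by rw [← mul_pow, r1, one_pow]
    have hw0 : w ^ d ≠ 0 := right_ne_zero_of_mul_eq_one h5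
    rw [h3, ← h5] at h4
    exact mul_right_cancel₀ hw0 h4
  -- too many roots of unity
  have hcard : #(range (d + 1)) ≤ #((Polynomial.nthRoots d (1 : ℂ)).toFinset) := by
    refine card_le_card_of_injOn (fun j : ℕ => (θ - j) / (θ' - j)) ?_ ?_
    · intro j hj
      rw [mem_coe, mem_range, Nat.lt_succ_iff] at hj
      obtain ⟨h1, h2, h3⟩ := hch j hj
      rw [mem_coe, Multiset.mem_toFinset, Polynomial.mem_nthRoots (by omega), div_pow, h3,
        div_self (pow_ne_zero _ h1)]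
    · intro j hj k hk hjk
      rw [mem_coe, mem_range, Nat.lt_succ_iff] at hj hk
      obtain ⟨h1, h2, h3⟩ := hch j hj
      obtain ⟨h1', h2', h3'⟩ := hch k hk
      simp only at hjk
      rw [div_eq_div_iff h1 h1'] at hjk
      have h4 : (θ - θ') * ((j : ℂ) - k) = 0 := by linear_combination hjk
      rcases mul_eq_zero.1 h4 with h5 | h5
      · exact absurd (sub_eq_zero.1 h5) hne
      · exact_mod_cast sub_eq_zero.1 h5
  rw [card_range] at hcard
  have h6 : #((Polynomial.nthRoots d (1 : ℂ)).toFinset) ≤ d :=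
    (Multiset.toFinset_card_le _).trans (Polynomial.card_nthRoots d 1)
  omega

end Pool.Agent.Q256.T3
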