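import Mathlib
import Pool.Agent.Q256.T3.Chart
import Pool.Agent.Q296.T3.Root

set_option autoImplicit false

/-!
The count of the forms with a bad value at some quadratic point.
-/

namespace Pool.Agent.Q256.T3

open Finset
open Pool.Agent.H813R3.Voj (rho rho_pos)

theorem hroot (η : ℝ) (hη : 0 < η) : RootCount η := Pool.Agent.Q296.T3.root_count η hη

theorem sz_le_of {x y z : ℤ} {N : ℕ} (hx : |x| ≤ N) (hy : |y| ≤ N) (hz : |z| ≤ N) :
    sz x y z ≤ N := by
  rw [Int.abs_eq_natAbs] at hx hy hz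
  unfold sz
  exact max_le (by exact_mod_cast hx) (max_le (by exact_mod_cast hy) (by exact_mod_cast hz))

theorem sz_symm (a b e : ℤ) : sz a b e = sz e b a := by
  unfold sz
  rw [max_left_comm, max_comm a.natAbs, ← max_left_comm]

theorem sz_ch (a b e j : ℤ) (d : ℕ) (hj : |j| ≤ d) :
    sz (a * j ^ 2 + b * j + e) (2 * a * j + b) a ≤ (d + 1) ^ 2 * sz a b e := by
  obtain ⟨h1, h2, h3⟩ := le_sz a b e
  set s : ℤ := (sz a b e : ℤ) with hs
  have hs0 : 0 ≤ s := Int.natCast_nonneg _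
  have hj0 := abs_nonneg j
  have hd0 : (0 : ℤ) ≤ d := Int.natCast_nonneg _
  have e1 : |a * j ^ 2| ≤ s * (d : ℤ) ^ 2 := by
    rw [abs_mul, abs_pow]
    exact mul_le_mul h1 (pow_le_pow_left₀ hj0 hj 2) (by positivity) hs0
  have e2 : |b * j| ≤ s * d := by
    rw [abs_mul]; exact mul_le_mul h2 hj hj0 hs0
  have e3 : |2 * a * j| ≤ 2 * s * d := by
    rw [abs_mul, abs_mul, abs_of_pos (by norm_num : (0 : ℤ) < 2)]
    exact mul_le_mul (mul_le_mul_of_nonneg_left h1 (by norm_num)) hj hj0 (by positivity)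
  have hsd : 0 ≤ s * d := by positivity
  have hsd2 : 0 ≤ s * (d : ℤ) ^ 2 := by positivity
  refine sz_le_of ?_ ?_ ?_
  · push_cast
    rw [← hs]
    calc |a * j ^ 2 + b * j + e| ≤ |a * j ^ 2| + |b * j| + |e| := abs_add_three _ _ _
      _ ≤ s * (d : ℤ) ^ 2 + s * d + s := by linarith
      _ ≤ ((d : ℤ) + 1) ^ 2 * s := by nlinarith
  · push_cast
    rw [← hs]
    calc |2 * a * j + b| ≤ |2 * a * j| + |b| := abs_add_le _ _
      _ ≤ 2 * s * d + s := by linarith
      _ ≤ ((d : ℤ) + 1) ^ 2 * s := by nlinarith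
  · push_cast
    rw [← hs]
    nlinarith

theorem sz_ch' (a b e j : ℤ) (d : ℕ) (hj : |j| ≤ d) :
    sz a b e ≤ (d + 1) ^ 2 * sz (a * j ^ 2 + b * j + e) (2 * a * j + b) a := by
  have h := sz_ch a (2 * a * j + b) (a * j ^ 2 + b * j + e) (-j) d (by rwa [abs_neg])
  have e1 : a * (-j) ^ 2 + (2 * a * j + b) * (-j) + (a * j ^ 2 + b * j + e) = e := by ring
  have e2 : 2 * a * (-j) + (2 * a * j + b) = b := by ring
  rw [e1, e2] at h
  rw [sz_symm a b e, sz_symm (a * j ^ 2 + b * j + e)]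
  exact h

theorem sz_pos {a b e f D : ℤ} (h : Quad a b e f D) : 1 ≤ sz a b e := by
  have h1 := (le_sz a b e).1
  have h2 := Int.one_le_abs h.a0
  omega

/-- **The count.** -/
theorem main_count {d : ℕ} (hd : 1 ≤ d) (S : Finset ℕ) (η : ℝ) (hη : 0 < η) :
    ∃ C : ℝ, 0 < C ∧ ∀ (T Y : ℕ) (W : ℝ) (A : Finset (Fin (d + 1) → ℤ)),
      1 ≤ T → 1 ≤ Y → 0 ≤ W →
      (∀ c ∈ A, (∀ i, |c i| ≤ T) ∧ ∃ a b e f D : ℤ, Quad a b e f D ∧ sz a b e ≤ Y ∧
        Res c a b e ≠ 0 ∧ (rho S (Res c a b e) : ℝ) * |(D : ℝ)| * wt d T (sz a b e) ≤ W) →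
      (#A : ℝ) ≤ C * W * ((T * Y : ℕ) : ℝ) ^ η := by
  classical
  obtain ⟨C, hC, hall⟩ := allM hroot hd S η hη
  set K1 : ℕ := (d + 1) * ((d + 1) ^ d * 2 ^ d) with hK1
  have hK11 : 1 ≤ K1 := Nat.succ_le_of_lt (by positivity)
  set K2 : ℕ := (d + 1) ^ 2 with hK2
  have hK21 : 1 ≤ K2 := Nat.succ_le_of_lt (by positivity)
  have hK1r : (1 : ℝ) ≤ K1 := by exact_mod_cast hK11
  have hK2r : (1 : ℝ) ≤ K2 := by exact_mod_cast hK21
  refine ⟨C + (d + 1) * (C * (K2 * (K1 * K2) ^ (d - 1)) * ((K1 * K2 : ℕ) : ℝ) ^ η), by positivity,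
    fun T Y W A hT hY hW hA => ?_⟩
  -- the charts
  let A0 : Finset (Fin (d + 1) → ℤ) := A.filter (fun c => ∃ a b e f D : ℤ, Quad a b e f D ∧
    sz a b e ≤ Y ∧ (xi c a b f D).im ≠ 0 ∧ Res c a b e ≠ 0 ∧
    (rho S (Res c a b e) : ℝ) * |(D : ℝ)| * wt d T (sz a b e) ≤ W)
  let Aj : ℕ → Finset (Fin (d + 1) → ℤ) := fun j => A.filter (fun c => ∃ a b e f D : ℤ,
    Quad a b e f D ∧ sz a b e ≤ Y ∧
    (xi (ch j c) (a * (j : ℤ) ^ 2 + b * j + e) (2 * a * j + b) f D).im ≠ 0 ∧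
    Res c a b e ≠ 0 ∧ (rho S (Res c a b e) : ℝ) * |(D : ℝ)| * wt d T (sz a b e) ≤ W)
  have hcover : A ⊆ A0 ∪ (range (d + 1)).biUnion Aj := by
    intro c hc
    obtain ⟨a, b, e, f, D, hQ, hs, hres, hr⟩ := (hA c hc).2
    rw [mem_union, mem_biUnion]
    by_cases h0 : (xi c a b f D).im = 0
    · right
      obtain ⟨j, hj, hne⟩ := exists_chart hd c hQ hres h0
      refine ⟨j, mem_range.2 (Nat.lt_succ_of_le hj), ?_⟩
      rw [mem_filter]
      exact ⟨hc, a, b, e, f, D, hQ, hs, hne, hres, hr⟩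
    · left
      rw [mem_filter]
      exact ⟨hc, a, b, e, f, D, hQ, hs, h0, hres, hr⟩
  have hA0 : (#A0 : ℝ) ≤ C * W * ((T * Y : ℕ) : ℝ) ^ η := by
    refine hall T Y W A0 hT hY hW (fun c hc => ?_)
    rw [mem_filter] at hc
    exact ⟨(hA c hc.1).1, hc.2⟩
  have hAj : ∀ j ∈ range (d + 1), (#(Aj j) : ℝ) ≤
      C * (K2 * (K1 * K2) ^ (d - 1)) * ((K1 * K2 : ℕ) : ℝ) ^ η * W * ((T * Y : ℕ) : ℝ) ^ η := by
    intro j hj
    rw [mem_range, Nat.lt_succ_iff] at hj
    have hjz : |((j : ℕ) : ℤ)| ≤ d := by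
      rw [abs_of_nonneg (Int.natCast_nonneg _)]
      exact_mod_cast hj
    have h1 := hall (K1 * T) (K2 * Y) (K2 * (K1 * K2) ^ (d - 1) * W) ((Aj j).image (ch j))
      (Nat.mul_pos hK11 hT) (Nat.mul_pos hK21 hY) (by positivity) (by
        intro c' hc'
        rw [mem_image] at hc'
        obtain ⟨c, hc, rfl⟩ := hc'
        rw [mem_filter] at hc
        obtain ⟨hcA, a, b, e, f, D, hQ, hs, him, hres, hr⟩ := hc
        refine ⟨fun i => ch_bound j hj c T (hA c hcA).1 i, _, _, _, f, D, hQ.ch j, ?_, him, ?_, ?_⟩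
        · exact (sz_ch a b e j d hjz).trans (Nat.mul_le_mul_left _ hs)
        · rw [Res_ch c hQ j]; exact hres
        · rw [Res_ch c hQ j]
          set s := sz a b e with hsd
          set s' := sz (a * (j : ℤ) ^ 2 + b * j + e) (2 * a * j + b) a with hsd'
          have q1 : (s' : ℝ) ≤ K2 * s := by exact_mod_cast sz_ch a b e j d hjz
          have q2 : (s : ℝ) ≤ K2 * s' := by exact_mod_cast sz_ch' a b e j d hjz
          have q3 : (1 : ℝ) ≤ s := by exact_mod_cast sz_pos hQ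
          have q4 : (1 : ℝ) ≤ s' := by exact_mod_cast sz_pos (hQ.ch j)
          have hm : max 1 (((K1 * T : ℕ) : ℝ) / s') ≤ (K1 * K2) * max 1 ((T : ℝ) / s) := by
            have hK : (1 : ℝ) ≤ K1 * K2 := one_le_mul_of_one_le_of_one_le hK1r hK2r
            refine max_le ?_ ?_
            · exact one_le_mul_of_one_le_of_one_le hK (le_max_left _ _)
            · calc (((K1 * T : ℕ) : ℝ) / s') ≤ (K1 * K2) * ((T : ℝ) / s) := by
                    rw [div_le_iff₀ (by linarith)]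
                    push_cast
                    have : (K1 : ℝ) * K2 * (T / s) * s' = K1 * T * (K2 * s' / s) := by
                      field_simp
                    rw [this]
                    refine le_mul_of_one_le_right (by positivity) ?_
                    rw [le_div_iff₀ (by linarith), one_mul]
                    exact q2
                _ ≤ _ := mul_le_mul_of_nonneg_left (le_max_right _ _) (by positivity)
          have hm0 : (0 : ℝ) ≤ max 1 (((K1 * T : ℕ) : ℝ) / s') :=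
            le_trans zero_le_one (le_max_left _ _)
          have hw : wt d (K1 * T) s' ≤ K2 * (K1 * K2) ^ (d - 1) * wt d T s := by
            unfold wt
            calc (s' : ℝ) * (max 1 (((K1 * T : ℕ) : ℝ) / s')) ^ (d - 1)
                ≤ (K2 * s) * ((K1 * K2) * max 1 ((T : ℝ) / s)) ^ (d - 1) :=
                  mul_le_mul q1 (pow_le_pow_left₀ hm0 hm _) (by positivity) (by positivity)
              _ = _ := by rw [mul_pow]; ring
          calc (rho S (Res c a b e) : ℝ) * |(D : ℝ)| * wt d (K1 * T) s'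
              ≤ (rho S (Res c a b e) : ℝ) * |(D : ℝ)| *
                (K2 * (K1 * K2) ^ (d - 1) * wt d T s) :=
                mul_le_mul_of_nonneg_left hw (by positivity)
            _ = K2 * (K1 * K2) ^ (d - 1) *
                ((rho S (Res c a b e) : ℝ) * |(D : ℝ)| * wt d T s) := by ring
            _ ≤ K2 * (K1 * K2) ^ (d - 1) * W :=
                mul_le_mul_of_nonneg_left hr (by positivity))
    rw [card_image_of_injective _ (ch_inj j)] at h1
    refine h1.trans (le_of_eq ?_)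
    have e1 : ((K1 * T * (K2 * Y) : ℕ) : ℝ) = ((K1 * K2 : ℕ) : ℝ) * ((T * Y : ℕ) : ℝ) := by
      push_cast; ring
    rw [e1, Real.mul_rpow (Nat.cast_nonneg _) (Nat.cast_nonneg _)]
    ring
  have h2 : (#A : ℝ) ≤ (#A0 : ℝ) + ∑ j ∈ range (d + 1), (#(Aj j) : ℝ) := by
    have h3 : #A ≤ #A0 + ∑ j ∈ range (d + 1), #(Aj j) :=
      (card_le_card hcover).trans ((card_union_le _ _).trans
        (Nat.add_le_add_left card_biUnion_le _))
    exact_mod_cast h3
  have h3 := sum_le_card_nsmul _ _ _ hAj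
  rw [card_range, nsmul_eq_mul] at h3
  calc (#A : ℝ) ≤ C * W * ((T * Y : ℕ) : ℝ) ^ η + ((d + 1 : ℕ) : ℝ) *
        (C * (K2 * (K1 * K2) ^ (d - 1)) * ((K1 * K2 : ℕ) : ℝ) ^ η * W * ((T * Y : ℕ) : ℝ) ^ η) :=
        h2.trans (add_le_add hA0 h3)
    _ = _ := by push_cast; ring

end Pool.Agent.Q256.T3
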