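import Mathlib
import Pool.Agent.Q256.T3.Main

set_option autoImplicit false

/-!
Rational points.
-/

namespace Pool.Agent.Q256.T3

open Finset
open Pool.Agent.H813R3.Voj (rho rho_pos)

/-- the value of the form at a rational point. -/
def val {d : ℕ} (c : Fin (d + 1) → ℤ) (p q : ℤ) : ℤ :=
  ∑ i : Fin (d + 1), c i * p ^ (i : ℕ) * q ^ (d - (i : ℕ))

theorem val_rev {d : ℕ} (c : Fin (d + 1) → ℤ) (p q : ℤ) :
    val (fun i => c (Fin.rev i)) q p = val c p q := by
  unfold val
  rw [← Equiv.sum_comp Fin.revPerm (fun i : Fin (d + 1) => c i * p ^ (i : ℕ) * q ^ (d - (i : ℕ)))]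
  refine sum_congr rfl (fun i _ => ?_)
  have hi : (i : ℕ) ≤ d := Nat.lt_succ_iff.1 i.2
  rw [Fin.revPerm_apply, Fin.val_rev]
  have e1 : d + 1 - ((i : ℕ) + 1) = d - i := by omega
  have e2 : d - (d - (i : ℕ)) = i := by omega
  rw [e1, e2]
  ring

theorem val_sub {d : ℕ} (c c' : Fin (d + 1) → ℤ) (p q : ℤ) :
    val (c - c') p q = val c p q - val c' p q := by
  unfold val
  rw [← sum_sub_distrib]
  refine sum_congr rfl (fun i _ => ?_)
  rw [Pi.sub_apply]
  ring

theorem val_eval {d : ℕ} (c : Fin (d + 1) → ℤ) (p q : ℤ) (hq : q ≠ 0) :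
    ((val c p q : ℤ) : ℚ) = (q : ℚ) ^ d * ((P c).map (Int.castRingHom ℚ)).eval ((p : ℚ) / q) := by
  have hq' : (q : ℚ) ≠ 0 := by exact_mod_cast hq
  unfold val P
  rw [Polynomial.map_sum, Polynomial.eval_finsetSum, mul_sum]
  push_cast
  refine sum_congr rfl (fun i _ => ?_)
  have hi : (i : ℕ) ≤ d := Nat.lt_succ_iff.1 i.2
  rw [Polynomial.map_mul, Polynomial.map_pow, Polynomial.map_C, Polynomial.map_X,
    Polynomial.eval_mul, Polynomial.eval_pow, Polynomial.eval_C, Polynomial.eval_X, div_pow]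
  have h1 : (q : ℚ) ^ d = (q : ℚ) ^ (d - (i : ℕ)) * (q : ℚ) ^ (i : ℕ) := by
    rw [← pow_add, Nat.sub_add_cancel hi]
  rw [h1]
  simp only [Int.coe_castRingHom]
  field_simp

/-- the linear polynomial of a rational point. -/
noncomputable def Lq (p q : ℤ) : Polynomial ℤ := Polynomial.C q * Polynomial.X - Polynomial.C p

theorem Lq_dvd {d : ℕ} (c : Fin (d + 1) → ℤ) (p q : ℤ) (hcop : IsCoprime p q) (hq : q ≠ 0)
    (h0 : val c p q = 0) : Lq p q ∣ P c := by
  have hprim : (Lq p q).IsPrimitive := by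
    intro r hr
    obtain ⟨u, hu⟩ := hr
    obtain ⟨x, y, hxy⟩ := hcop
    have c0 := congrArg (fun p => Polynomial.coeff p 0) hu
    have c1 := congrArg (fun p => Polynomial.coeff p 1) hu
    unfold Lq at c0 c1
    simp only [Polynomial.coeff_sub, Polynomial.coeff_C_mul, Polynomial.coeff_X,
      Polynomial.coeff_C] at c0 c1
    norm_num at c0 c1
    refine isUnit_of_dvd_one ⟨y * u.coeff 1 - x * u.coeff 0, ?_⟩
    rw [← hxy]
    linear_combination y * c1 - x * c0
  have hq' : (q : ℚ) ≠ 0 := by exact_mod_cast hq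
  rw [Polynomial.IsPrimitive.Int.dvd_iff_map_cast_dvd_map_cast _ _ hprim]
  have h1 := val_eval c p q hq
  rw [h0, Int.cast_zero] at h1
  have h2 : ((P c).map (Int.castRingHom ℚ)).eval ((p : ℚ) / q) = 0 := by
    rcases mul_eq_zero.1 h1.symm with h3 | h3
    · exact absurd h3 (pow_ne_zero _ hq')
    · exact h3
  have h3 : (Polynomial.X - Polynomial.C ((p : ℚ) / q)) ∣ (P c).map (Int.castRingHom ℚ) :=
    Polynomial.dvd_iff_isRoot.2 h2
  have h4 : (Lq p q).map (Int.castRingHom ℚ) =
      Polynomial.C (q : ℚ) * (Polynomial.X - Polynomial.C ((p : ℚ) / q)) := by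
    unfold Lq
    rw [Polynomial.map_sub, Polynomial.map_mul, Polynomial.map_C, Polynomial.map_C,
      Polynomial.map_X, mul_sub, ← Polynomial.C_mul, mul_div_cancel₀ _ hq']
    rfl
  rw [h4]
  exact (Polynomial.isUnit_C.2 (isUnit_iff_ne_zero.2 hq')).mul_left_dvd.2 h3

/-- **The fibres, first chart.** -/
theorem fibreR {d : ℕ} (T M : ℕ) (hM : 1 ≤ M) (p q m : ℤ)
    (hcop : IsCoprime p q) (hpq : |p| ≤ |q|) (hM1 : (M : ℤ) ≤ 2 * |q|)
    (A : Finset (Fin (d + 1) → ℤ)) (hA : ∀ c ∈ A, (∀ i, |c i| ≤ T) ∧ val c p q = m) :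
    (#A : ℝ) ≤ ((8 * d + 1) * max 1 ((T : ℝ) / M)) ^ d := by
  classical
  have hMr : (0 : ℝ) < M := by exact_mod_cast hM
  have hm1 : 1 ≤ max 1 ((T : ℝ) / M) := le_max_left _ _
  have hq : q ≠ 0 := by
    rintro rfl
    rw [abs_zero] at hM1
    omega
  rcases A.eq_empty_or_nonempty with h0 | ⟨c0, hc0⟩
  · subst h0
    simp only [card_empty, Nat.cast_zero]
    positivity
  have key : ∀ c : Fin (d + 1) → ℤ, ∃ u : Polynomial ℤ, c ∈ A → P c - P c0 = Lq p q * u := by
    intro c
    by_cases hc : c ∈ A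
    · obtain ⟨u, hu⟩ := Lq_dvd (c - c0) p q hcop hq (by
        rw [val_sub, (hA c hc).2, (hA c0 hc0).2, sub_self])
      rw [← P_sub] at hu
      exact ⟨u, fun _ => hu⟩
    · exact ⟨0, fun h => absurd h hc⟩
  choose u hu using key
  have hLcoeff : ∀ (w : Polynomial ℤ) (j : ℕ), (Lq p q * w).coeff (j + 1) =
      q * w.coeff j - p * w.coeff (j + 1) := by
    intro w j
    unfold Lq
    rw [sub_mul, Polynomial.coeff_sub, mul_assoc, Polynomial.coeff_C_mul, Polynomial.coeff_X_mul,
      Polynomial.coeff_C_mul]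
  have hLdeg : (Lq p q).natDegree = 1 := by
    have : Lq p q = Polynomial.C q * Polynomial.X + Polynomial.C (-p) := by
      unfold Lq; rw [Polynomial.C_neg, sub_eq_add_neg]
    rw [this]
    exact Polynomial.natDegree_linear hq
  have hL0 : Lq p q ≠ 0 := by
    intro h0
    rw [h0] at hLdeg
    simp at hLdeg
  have hudeg : ∀ c ∈ A, ∀ j, d ≤ j → (u c).coeff j = 0 := by
    intro c hc j hj
    by_cases hu0 : u c = 0
    · rw [hu0]; simp
    have h1 : (P c - P c0).natDegree ≤ d := by rw [P_sub]; exact P_deg _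
    rw [hu c hc, Polynomial.natDegree_mul hL0 hu0, hLdeg] at h1
    exact Polynomial.coeff_eq_zero_of_natDegree_lt (by omega)
  have hcoef : ∀ c ∈ A, ∀ k ≤ d, |q| * |(u c).coeff (d - k)| ≤ 2 * k * T := by
    intro c hc k
    induction k with
    | zero =>
      intro _
      rw [Nat.sub_zero, hudeg c hc d le_rfl]
      simp
    | succ k ih =>
      intro hk
      have h1 := ih (by omega)
      have h2 : d - k = (d - (k + 1)) + 1 := by omega
      have h3 := hLcoeff (u c) (d - (k + 1))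
      rw [← hu c hc, ← h2, P_sub, P_coeff, dif_pos (by omega), Pi.sub_apply] at h3
      have h4 : |c ⟨d - k, by omega⟩ - c0 ⟨d - k, by omega⟩| ≤ 2 * (T : ℤ) := by
        refine (abs_sub _ _).trans ?_
        have := (hA c hc).1 ⟨d - k, by omega⟩
        have := (hA c0 hc0).1 ⟨d - k, by omega⟩
        linarith
      have h5 : q * (u c).coeff (d - (k + 1)) =
          (c ⟨d - k, by omega⟩ - c0 ⟨d - k, by omega⟩) + p * (u c).coeff (d - k) := by
        linarith
      rw [← abs_mul, h5]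
      refine (abs_add_le _ _).trans ?_
      rw [abs_mul p]
      have h6 : |p| * |(u c).coeff (d - k)| ≤ |q| * |(u c).coeff (d - k)| :=
        mul_le_mul_of_nonneg_right hpq (abs_nonneg _)
      push_cast
      linarith
  have hcoef' : ∀ c ∈ A, ∀ j, j ≤ d → |((u c).coeff j : ℝ)| ≤ 4 * d * T / M := by
    intro c hc j hj
    have h1 := hcoef c hc (d - j) (by omega)
    rw [Nat.sub_sub_self hj] at h1
    have h2 : |q| * |(u c).coeff j| ≤ 2 * d * T := by
      refine h1.trans ?_
      have h3 : ((d - j : ℕ) : ℤ) ≤ d := by omega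
      exact mul_le_mul_of_nonneg_right (mul_le_mul_of_nonneg_left h3 (by norm_num))
        (Int.natCast_nonneg _)
    have h3 : (|q| : ℤ) * |(u c).coeff j| * 2 ≤ 4 * d * T := by linarith
    have h4 : (M : ℤ) * |(u c).coeff j| ≤ 4 * d * T := by
      refine le_trans ?_ h3
      have := mul_le_mul_of_nonneg_right hM1 (abs_nonneg ((u c).coeff j))
      linarith
    rw [le_div_iff₀ hMr]
    have h5 : (((M : ℤ) * |(u c).coeff j| : ℤ) : ℝ) ≤ ((4 * d * T : ℤ) : ℝ) := by exact_mod_cast h4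
    push_cast at h5
    linarith
  let X : ℕ := ⌊(4 * d * T / M : ℝ)⌋₊
  have h1 : #A ≤ #(Fintype.piFinset (fun _ : Fin d => Icc (-(X : ℤ)) X)) := by
    refine card_le_card_of_injOn (fun c j => (u c).coeff j) ?_ ?_
    · intro c hc
      rw [mem_coe] at hc
      rw [mem_coe, Fintype.mem_piFinset]
      intro j
      rw [mem_Icc, ← abs_le]
      have h2 := hcoef' c hc j (by have := j.2; omega)
      rw [Int.abs_eq_natAbs]
      have h3 : ((u c).coeff (j : ℕ)).natAbs ≤ X := by
        refine Nat.le_floor ?_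
        rw [Nat.cast_natAbs, Int.cast_abs]
        exact h2
      exact_mod_cast h3
    · intro c hc c' hc' hcc
      rw [mem_coe] at hc hc'
      have h5 : u c = u c' := by
        refine Polynomial.ext (fun j => ?_)
        rcases Nat.lt_or_ge j d with hj | hj
        · exact congrFun hcc ⟨j, hj⟩
        · rw [hudeg c hc j hj, hudeg c' hc' j hj]
      have h6 : P c - P c0 = P c' - P c0 := by rw [hu c hc, hu c' hc', h5]
      exact P_inj (sub_left_injective h6)
  have h2 : (#(Fintype.piFinset (fun _ : Fin d => Icc (-(X : ℤ)) X)) : ℝ) ≤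
      ((8 * d + 1) * max 1 ((T : ℝ) / M)) ^ d := by
    rw [Fintype.card_piFinset, prod_const, card_univ, Fintype.card_fin, Int.card_Icc]
    push_cast
    have h3 : ((((X : ℤ) + 1 - -(X : ℤ)).toNat : ℕ) : ℝ) = 2 * (X : ℝ) + 1 := by
      have : ((X : ℤ) + 1 - -(X : ℤ)).toNat = 2 * X + 1 := by omega
      rw [this]
      push_cast
      ring
    rw [h3]
    refine pow_le_pow_left₀ (by positivity) ?_ _
    have h4 : (X : ℝ) ≤ 4 * d * T / M := Nat.floor_le (by positivity)
    set m : ℝ := max 1 ((T : ℝ) / M) with hm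
    have hm2 : (T : ℝ) / M ≤ m := le_max_right _ _
    have h5 : (4 * d * T / M : ℝ) ≤ 4 * d * m := by
      have : (4 * d * T / M : ℝ) = 4 * d * (T / M) := by ring
      rw [this]
      exact mul_le_mul_of_nonneg_left hm2 (by positivity)
    linarith
  refine le_trans ?_ h2
  exact_mod_cast h1

end Pool.Agent.Q256.T3
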