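import Mathlib
import Pool.Agent.Q256.T3.Rat

set_option autoImplicit false

/-!
Counting the forms with a bad value at some rational point.
-/

namespace Pool.Agent.Q256.T3

open Finset
open Pool.Agent.H813R3.Voj (rho rho_pos)

/-- the height of a rational point. -/
def szR (p q : ℤ) : ℕ := max p.natAbs q.natAbs

theorem fibreR' {d : ℕ} (T M : ℕ) (hM : 1 ≤ M) (p q m : ℤ)
    (hcop : IsCoprime p q) (hM1 : M ≤ 2 * szR p q)
    (A : Finset (Fin (d + 1) → ℤ)) (hA : ∀ c ∈ A, (∀ i, |c i| ≤ T) ∧ val c p q = m) :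
    (#A : ℝ) ≤ ((8 * d + 1) * max 1 ((T : ℝ) / M)) ^ d := by
  classical
  rcases le_total |p| |q| with hpq | hpq
  · have h1 : szR p q = q.natAbs := by
      unfold szR
      rw [Int.abs_eq_natAbs, Int.abs_eq_natAbs] at hpq
      exact max_eq_right (by exact_mod_cast hpq)
    refine fibreR T M hM p q m hcop hpq ?_ A hA
    rw [h1] at hM1
    rw [Int.abs_eq_natAbs]
    exact_mod_cast hM1
  · have h1 : szR p q = p.natAbs := by
      unfold szR
      rw [Int.abs_eq_natAbs, Int.abs_eq_natAbs] at hpq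
      exact max_eq_left (by exact_mod_cast hpq)
    have h2 := fibreR T M hM q p m hcop.symm hpq (by
      rw [h1] at hM1
      rw [Int.abs_eq_natAbs]
      exact_mod_cast hM1) (A.image (fun c i => c (Fin.rev i))) (by
        intro c' hc'
        rw [mem_image] at hc'
        obtain ⟨c, hc, rfl⟩ := hc'
        exact ⟨fun i => (hA c hc).1 _, by rw [val_rev]; exact (hA c hc).2⟩)
    rw [card_image_of_injective] at h2
    · exact h2
    · intro c c' h
      funext i
      have := congrFun h (Fin.rev i)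
      simpa using this

theorem val_bound {d : ℕ} (c : Fin (d + 1) → ℤ) (p q : ℤ) (T M : ℕ) (hc : ∀ i, |c i| ≤ T)
    (hp : |p| ≤ M) (hq : |q| ≤ M) : |val c p q| ≤ (((d + 1) * T * M ^ d : ℕ) : ℤ) := by
  unfold val
  refine (abs_sum_le_sum_abs _ _).trans ?_
  have hterm : ∀ i ∈ (univ : Finset (Fin (d + 1))), |c i * p ^ (i : ℕ) * q ^ (d - (i : ℕ))| ≤
      (T : ℤ) * (M : ℤ) ^ d := by
    intro i _
    have hi : (i : ℕ) ≤ d := Nat.lt_succ_iff.1 i.2
    rw [abs_mul, abs_mul, abs_pow, abs_pow]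
    calc |c i| * |p| ^ (i : ℕ) * |q| ^ (d - (i : ℕ)) ≤ T * (M : ℤ) ^ (i : ℕ) * (M : ℤ) ^ (d - (i : ℕ)) :=
          mul_le_mul (mul_le_mul (hc i) (pow_le_pow_left₀ (abs_nonneg _) hp _) (by positivity)
            (by positivity)) (pow_le_pow_left₀ (abs_nonneg _) hq _) (by positivity) (by positivity)
      _ = T * (M : ℤ) ^ d := by rw [mul_assoc, ← pow_add, Nat.add_sub_cancel' hi]
  refine (sum_le_sum hterm).trans (le_of_eq ?_)
  rw [sum_const, card_univ, Fintype.card_fin, nsmul_eq_mul]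
  push_cast
  ring

theorem dyadicR (d : ℕ) (S : Finset ℕ)
    (η : ℝ) (hη : 0 < η) : ∃ C : ℝ, 0 < C ∧ ∀ (T M : ℕ) (R : ℝ) (A : Finset (Fin (d + 1) → ℤ)),
      1 ≤ T → 1 ≤ M → 0 ≤ R →
      (∀ c ∈ A, (∀ i, |c i| ≤ T) ∧ ∃ p q : ℤ, IsCoprime p q ∧ szR p q ≤ M ∧
        M ≤ 2 * szR p q ∧ val c p q ≠ 0 ∧ (rho S (val c p q) : ℝ) ≤ R) →
      (#A : ℝ) ≤ C * R * M ^ 2 * (max 1 ((T : ℝ) / M)) ^ d * ((T * M : ℕ) : ℝ) ^ η := by
  classical
  set t : ℝ := η / (d + 1) with ht
  have ht0 : 0 < t := by positivity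
  obtain ⟨C, hC, hcm⟩ := card_mS S t ht0
  refine ⟨(8 * d + 1) ^ d * (C * 9) * ((d : ℝ) + 1) ^ t, by positivity,
    fun T M R A hT hM hR hA => ?_⟩
  have hTr : (1 : ℝ) ≤ T := by exact_mod_cast hT
  have hMr : (1 : ℝ) ≤ M := by exact_mod_cast hM
  set L : ℕ := T * M with hL
  have hTL : T ≤ L := Nat.le_mul_of_pos_right T hM
  have hML : M ≤ L := Nat.le_mul_of_pos_left M hT
  set X : ℕ := (d + 1) * T * M ^ d with hX
  have hX1 : 1 ≤ X := Nat.succ_le_of_lt (by positivity)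
  have key : ∀ c : Fin (d + 1) → ℤ, ∃ p q : ℤ, c ∈ A → IsCoprime p q ∧ szR p q ≤ M ∧
        M ≤ 2 * szR p q ∧ val c p q ≠ 0 ∧ (rho S (val c p q) : ℝ) ≤ R := by
    intro c
    by_cases hc : c ∈ A
    · obtain ⟨p, q, h⟩ := (hA c hc).2
      exact ⟨p, q, fun _ => h⟩
    · exact ⟨0, 0, fun h => absurd h hc⟩
  choose p q hq using key
  let Dt : Finset (ℤ × ℤ × ℤ) := mS S X R 1 ×ˢ (Icc (-(M : ℤ)) M ×ˢ Icc (-(M : ℤ)) M)
  let Φ : (Fin (d + 1) → ℤ) → ℤ × ℤ × ℤ := fun c => (val c (p c) (q c), p c, q c)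
  have hmaps : ∀ c ∈ A, Φ c ∈ Dt := by
    intro c hc
    obtain ⟨hcop, hs1, hs2, hv, hr⟩ := hq c hc
    have hp' : |p c| ≤ M := by
      rw [Int.abs_eq_natAbs]
      have : (p c).natAbs ≤ szR (p c) (q c) := le_max_left _ _
      exact_mod_cast this.trans hs1
    have hq' : |q c| ≤ M := by
      rw [Int.abs_eq_natAbs]
      have : (q c).natAbs ≤ szR (p c) (q c) := le_max_right _ _
      exact_mod_cast this.trans hs1
    change (val c (p c) (q c), p c, q c) ∈ mS S X R 1 ×ˢ (Icc (-(M : ℤ)) M ×ˢ Icc (-(M : ℤ)) M)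
    rw [mem_product, mem_product, mem_Icc, mem_Icc, ← abs_le, ← abs_le, mS, mem_filter, mem_Icc,
      ← abs_le]
    refine ⟨⟨val_bound c _ _ T M (hA c hc).1 hp' hq', hv, ?_⟩, hp', hq'⟩
    rw [Int.cast_one, abs_one, mul_one]
    exact hr
  set F : ℝ := ((8 * d + 1) * max 1 ((T : ℝ) / M)) ^ d with hF
  have hm0 : 0 < max 1 ((T : ℝ) / M) := lt_of_lt_of_le one_pos (le_max_left _ _)
  have hF0 : 0 ≤ F := by positivity
  have hfib : ∀ y ∈ Dt, #{c ∈ A | Φ c = y} ≤ ⌊F⌋₊ := by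
    intro y _
    refine Nat.le_floor ?_
    rcases (A.filter (fun c => Φ c = y)).eq_empty_or_nonempty with h0 | ⟨c1, hc1⟩
    · rw [h0, card_empty]
      exact_mod_cast hF0
    · rw [mem_filter] at hc1
      obtain ⟨hc1A, hc1y⟩ := hc1
      obtain ⟨hcop, hs1, hs2, hv, hr⟩ := hq c1 hc1A
      refine fibreR' T M hM (p c1) (q c1) (val c1 (p c1) (q c1)) hcop hs2 _ ?_
      intro c hc
      rw [mem_filter] at hc
      refine ⟨(hA c hc.1).1, ?_⟩
      have hcy : Φ c = Φ c1 := hc.2.trans hc1y.symm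
      have k1 : val c (p c) (q c) = val c1 (p c1) (q c1) := congrArg (fun x => x.1) hcy
      have k2 : p c = p c1 := congrArg (fun x => x.2.1) hcy
      have k3 : q c = q c1 := congrArg (fun x => x.2.2) hcy
      rw [k2, k3] at k1
      exact k1
  have h1 : #A ≤ ⌊F⌋₊ * #Dt := card_le_mul_card_image_of_maps_to hmaps _ hfib
  have h2 : (#A : ℝ) ≤ F * #Dt := by
    have h3 : (#A : ℝ) ≤ (⌊F⌋₊ : ℝ) * #Dt := by exact_mod_cast h1
    exact h3.trans (mul_le_mul_of_nonneg_right (Nat.floor_le hF0) (Nat.cast_nonneg _))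
  have hDt : (#Dt : ℝ) ≤ (C * R * (X : ℝ) ^ t) * (9 * M ^ 2) := by
    rw [card_product, card_product, Int.card_Icc]
    push_cast
    have h3 := hcm X R 1 hX1 hR one_ne_zero
    rw [Int.cast_one, abs_one, div_one, mul_one] at h3
    have h4 : ((((M : ℤ) + 1 - -(M : ℤ)).toNat : ℕ) : ℝ) ≤ 3 * M := by
      have : ((M : ℤ) + 1 - -(M : ℤ)).toNat = 2 * M + 1 := by omega
      rw [this]
      push_cast
      linarith
    refine mul_le_mul h3 ?_ (by positivity) (by positivity)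
    calc _ ≤ (3 * (M : ℝ)) * (3 * M) := mul_le_mul h4 h4 (Nat.cast_nonneg _) (by positivity)
      _ = _ := by ring
  refine h2.trans ((mul_le_mul_of_nonneg_left hDt hF0).trans ?_)
  have hXp : (X : ℝ) ^ t ≤ ((d : ℝ) + 1) ^ t * (L : ℝ) ^ η := by
    have h3 : (X : ℝ) ≤ (d + 1) * (L : ℝ) ^ (d + 1) := by
      have e1 : (T : ℝ) ≤ L := by exact_mod_cast hTL
      have e2 : (M : ℝ) ≤ L := by exact_mod_cast hML
      rw [hX]
      push_cast
      calc ((d : ℝ) + 1) * T * M ^ d ≤ (d + 1) * L * L ^ d :=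
            mul_le_mul (mul_le_mul_of_nonneg_left e1 (by positivity))
              (pow_le_pow_left₀ (by positivity) e2 _) (by positivity) (by positivity)
        _ = _ := by ring
    refine (Real.rpow_le_rpow (Nat.cast_nonneg _) h3 ht0.le).trans (le_of_eq ?_)
    rw [Real.mul_rpow (by positivity) (by positivity), ← Real.rpow_natCast (L : ℝ) (d + 1),
      ← Real.rpow_mul (by positivity)]
    congr 2
    rw [ht]
    push_cast
    field_simp
  calc F * ((C * R * (X : ℝ) ^ t) * (9 * M ^ 2))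
      ≤ F * ((C * R * (((d : ℝ) + 1) ^ t * (L : ℝ) ^ η)) * (9 * M ^ 2)) := by
        refine mul_le_mul_of_nonneg_left (mul_le_mul_of_nonneg_right
          (mul_le_mul_of_nonneg_left hXp (by positivity)) (by positivity)) hF0
    _ = _ := by
        rw [hF, mul_pow]
        ring

/-- the weight of a rational point. -/
noncomputable def wtR (d T : ℕ) (s : ℕ) : ℝ := s ^ 2 * (max 1 ((T : ℝ) / s)) ^ d

/-- **All sizes.** -/
theorem allR (d : ℕ) (S : Finset ℕ)
    (η : ℝ) (hη : 0 < η) : ∃ C : ℝ, 0 < C ∧ ∀ (T Y : ℕ) (W : ℝ) (A : Finset (Fin (d + 1) → ℤ)),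
      1 ≤ T → 1 ≤ Y → 0 ≤ W →
      (∀ c ∈ A, (∀ i, |c i| ≤ T) ∧ ∃ p q : ℤ, IsCoprime p q ∧ szR p q ≤ Y ∧
        val c p q ≠ 0 ∧ (rho S (val c p q) : ℝ) * wtR d T (szR p q) ≤ W) →
      (#A : ℝ) ≤ C * W * ((T * Y : ℕ) : ℝ) ^ η := by
  classical
  set t : ℝ := η / 2 with ht
  have ht0 : 0 < t := by positivity
  obtain ⟨C, hC, hdy⟩ := dyadicR d S t ht0
  have hl2 : 0 < Real.log 2 := Real.log_pos (by norm_num)
  refine ⟨(1 / t / Real.log 2 + 1) * (4 * C * 2 ^ t), by positivity, fun T Y W A hT hY hW hA => ?_⟩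
  have hTr : (1 : ℝ) ≤ T := by exact_mod_cast hT
  have hYr : (1 : ℝ) ≤ Y := by exact_mod_cast hY
  set L : ℝ := ((T * Y : ℕ) : ℝ) with hL
  have hLe : L = T * Y := by rw [hL]; push_cast; ring
  have hYL : (Y : ℝ) ≤ L := by rw [hLe]; exact le_mul_of_one_le_left (by linarith) hTr
  have hL1 : 1 ≤ L := hYr.trans hYL
  have key : ∀ c : Fin (d + 1) → ℤ, ∃ p q : ℤ, c ∈ A → IsCoprime p q ∧ szR p q ≤ Y ∧
        val c p q ≠ 0 ∧ (rho S (val c p q) : ℝ) * wtR d T (szR p q) ≤ W := by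
    intro c
    by_cases hc : c ∈ A
    · obtain ⟨p, q, h⟩ := (hA c hc).2
      exact ⟨p, q, fun _ => h⟩
    · exact ⟨0, 0, fun h => absurd h hc⟩
  choose p q hq using key
  let k : (Fin (d + 1) → ℤ) → ℕ := fun c => Nat.log 2 (szR (p c) (q c))
  have hmaps : ∀ c ∈ A, k c ∈ range (Nat.log 2 Y + 1) := by
    intro c hc
    rw [mem_range, Nat.lt_succ_iff]
    exact Nat.log_mono_right (hq c hc).2.1
  have hpart : ∀ j ∈ range (Nat.log 2 Y + 1),
      ((#(A.filter (fun c => k c = j)) : ℕ) : ℝ) ≤ 4 * C * 2 ^ t * W * L ^ t := by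
    intro j hj
    rw [mem_range, Nat.lt_succ_iff] at hj
    set M : ℕ := 2 ^ (j + 1) with hM
    have hM1 : 1 ≤ M := Nat.one_le_two_pow
    have hMr : (0 : ℝ) < M := by exact_mod_cast hM1
    set m : ℝ := max 1 ((T : ℝ) / M) with hm
    have hm0 : 0 < m := lt_of_lt_of_le one_pos (le_max_left _ _)
    have h1 := hdy T M (4 * W / (M ^ 2 * m ^ d)) (A.filter (fun c => k c = j)) hT hM1
      (by positivity) (by
        intro c hc
        rw [mem_filter] at hc
        obtain ⟨hcA, hck⟩ := hc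
        obtain ⟨hcop, hs1, hv, hrho⟩ := hq c hcA
        have hs0 : szR (p c) (q c) ≠ 0 := by
          intro h0
          unfold szR at h0
          have h1 : (p c).natAbs = 0 := by
            have := le_max_left (p c).natAbs (q c).natAbs; omega
          have h2 : (q c).natAbs = 0 := by
            have := le_max_right (p c).natAbs (q c).natAbs; omega
          rw [Int.natAbs_eq_zero] at h1 h2
          rw [h1, h2] at hcop
          obtain ⟨x, y, hxy⟩ := hcop
          simp at hxy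
        have hu : szR (p c) (q c) < M := by
          rw [hM, ← hck]
          exact Nat.lt_pow_succ_log_self (by norm_num) _
        have hl : M ≤ 2 * szR (p c) (q c) := by
          rw [hM, pow_succ, mul_comm, ← hck]
          exact Nat.mul_le_mul_left _ (Nat.pow_log_le_self 2 hs0)
        refine ⟨(hA c hcA).1, p c, q c, hcop, hu.le, hl, hv, ?_⟩
        rw [le_div_iff₀ (by positivity)]
        have hsr : (0 : ℝ) < szR (p c) (q c) := by exact_mod_cast Nat.pos_of_ne_zero hs0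
        have hur : ((szR (p c) (q c) : ℕ) : ℝ) ≤ M := by exact_mod_cast hu.le
        have hlr : (M : ℝ) ≤ 2 * szR (p c) (q c) := by exact_mod_cast hl
        have e1 : m ≤ max 1 ((T : ℝ) / szR (p c) (q c)) := by
          rw [hm]
          exact max_le_max le_rfl (div_le_div_of_nonneg_left (by linarith) hsr hur)
        have e2 : m ^ d ≤ (max 1 ((T : ℝ) / szR (p c) (q c))) ^ d :=
          pow_le_pow_left₀ hm0.le e1 _
        calc (rho S (val c (p c) (q c)) : ℝ) * (M ^ 2 * m ^ d)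
            ≤ (rho S (val c (p c) (q c)) : ℝ) *
              ((2 * szR (p c) (q c)) ^ 2 *
                (max 1 ((T : ℝ) / szR (p c) (q c))) ^ d) := by
              refine mul_le_mul_of_nonneg_left ?_ (by positivity)
              exact mul_le_mul (pow_le_pow_left₀ (by positivity) hlr 2) e2 (by positivity)
                (by positivity)
          _ = 4 * ((rho S (val c (p c) (q c)) : ℝ) *
              wtR d T (szR (p c) (q c))) := by unfold wtR; ring
          _ ≤ 4 * W := by linarith)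
    refine h1.trans ?_
    have hMY : (M : ℝ) ≤ 2 * Y := by
      have h2 : 2 ^ j ≤ Y := (Nat.pow_le_pow_right (by norm_num) hj).trans
        (Nat.pow_log_le_self 2 (by omega))
      have h3 : M ≤ 2 * Y := by rw [hM, pow_succ]; omega
      exact_mod_cast h3
    have hTM : ((T * M : ℕ) : ℝ) ^ t ≤ 2 ^ t * L ^ t := by
      rw [← Real.mul_rpow (by norm_num) (by linarith)]
      refine Real.rpow_le_rpow (Nat.cast_nonneg _) ?_ ht0.le
      push_cast
      rw [hLe]
      nlinarith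
    calc C * (4 * W / (M ^ 2 * m ^ d)) * M ^ 2 * m ^ d * ((T * M : ℕ) : ℝ) ^ t
        = 4 * C * W * ((T * M : ℕ) : ℝ) ^ t := by field_simp
      _ ≤ 4 * C * W * (2 ^ t * L ^ t) := mul_le_mul_of_nonneg_left hTM (by positivity)
      _ = _ := by ring
  have hsum : (#A : ℝ) = ∑ j ∈ range (Nat.log 2 Y + 1),
      ((#(A.filter (fun c => k c = j)) : ℕ) : ℝ) := by
    rw [card_eq_sum_card_fiberwise hmaps]
    push_cast
    rfl
  rw [hsum]
  have h2 := sum_le_card_nsmul _ _ _ hpart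
  rw [card_range, nsmul_eq_mul] at h2
  refine h2.trans ?_
  have hlog : ((Nat.log 2 Y + 1 : ℕ) : ℝ) ≤ (1 / t / Real.log 2 + 1) * L ^ t := by
    have h3 : 2 ^ Nat.log 2 Y ≤ Y := Nat.pow_log_le_self 2 (by omega)
    have h4 : (Nat.log 2 Y : ℝ) * Real.log 2 ≤ Real.log Y := by
      rw [← Real.log_pow]
      exact Real.log_le_log (by positivity) (by exact_mod_cast h3)
    have h5 : Real.log Y ≤ (Y : ℝ) ^ t / t := Real.log_le_rpow_div (by linarith) ht0
    have h6 : (Y : ℝ) ^ t ≤ L ^ t := Real.rpow_le_rpow (by linarith) hYL ht0.le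
    have h7 : 1 ≤ L ^ t := Real.one_le_rpow hL1 ht0.le
    have h8 : (Nat.log 2 Y : ℝ) ≤ 1 / t / Real.log 2 * L ^ t := by
      have h9 : (Nat.log 2 Y : ℝ) ≤ (Y : ℝ) ^ t / t / Real.log 2 := by
        rw [le_div_iff₀ hl2]; linarith
      refine h9.trans ?_
      rw [div_div, div_div, one_div, div_eq_inv_mul]
      exact mul_le_mul_of_nonneg_left h6 (by positivity)
    push_cast
    linarith
  have hLη : L ^ η = L ^ t * L ^ t := by
    rw [← Real.rpow_add (by linarith)]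
    congr 1
    rw [ht]; ring
  rw [hLη]
  calc ((Nat.log 2 Y + 1 : ℕ) : ℝ) * (4 * C * 2 ^ t * W * L ^ t)
      ≤ ((1 / t / Real.log 2 + 1) * L ^ t) * (4 * C * 2 ^ t * W * L ^ t) :=
        mul_le_mul_of_nonneg_right hlog (by positivity)
    _ = _ := by ring

end Pool.Agent.Q256.T3
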