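import Mathlib
import Pool.Agent.Q256.T3.RatC

set_option autoImplicit false

/-!
Almost all divisors of the projective line and all points of degree at most two.
-/

namespace Pool.Agent.Q256.T3

open Finset
open Pool.Agent.H813R3.Voj (rho rho_pos)

/-- the Mahler measure of `a X² + b X + e`. -/
noncomputable def Mah (a b e : ℤ) : ℝ := ((G a b e).map (Int.castRingHom ℂ)).mahlerMeasure

/-- the height of the roots of the primitive irreducible polynomial `a X² + b X + e`. -/
noncomputable def hQ (a b e : ℤ) : ℝ := 1 / 2 * Real.log (Mah a b e)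

/-- the height of the rational point `(p : q)`. -/
noncomputable def hR (p q : ℤ) : ℝ := Real.log (((max |p| |q| : ℤ) : ℝ))

/-- the truncated counting function. -/
noncomputable def N1 (S : Finset ℕ) (r : ℕ) (m : ℤ) : ℝ :=
  1 / (r : ℝ) * ∑ p ∈ m.natAbs.primeFactors \ S, Real.log p

/-- the forms of height at most `T` for which `N + d(x) ≥ B r h(x)` fails at some point `x` of
degree `r ∈ {1, 2}` outside the divisor with `h(x) ≤ lim r`. -/
def Bad (d : ℕ) (S : Finset ℕ) (T : ℕ) (lim : ℕ → ℝ) (B : ℕ → ℝ → ℝ) : Set (Fin (d + 1) → ℤ) :=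
  {c | (∀ i, |c i| ≤ T) ∧
    ((∃ p q : ℤ, IsCoprime p q ∧ val c p q ≠ 0 ∧ hR p q ≤ lim 1 ∧
      N1 S 1 (val c p q) < B 1 (hR p q)) ∨
    ∃ a b e f D : ℤ, Quad a b e f D ∧ Res c a b e ≠ 0 ∧ hQ a b e ≤ lim 2 ∧
      N1 S 2 (Res c a b e) + 1 / 2 * Real.log |(D : ℝ)| < B 2 (hQ a b e))}

theorem N1_eq (S : Finset ℕ) (r : ℕ) (m : ℤ) : N1 S r m = 1 / (r : ℝ) * Real.log (rho S m) := by
  unfold N1 rho
  congr 1
  push_cast
  rw [Real.log_prod]
  intro p hp
  rw [mem_sdiff] at hp
  exact_mod_cast (Nat.prime_of_mem_primeFactors hp.1).ne_zero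

theorem mah_coeff (a b e : ℤ) (i : ℕ) :
    ‖((G a b e).map (Int.castRingHom ℂ)).coeff i‖ = |(((G a b e).coeff i : ℤ) : ℝ)| := by
  rw [Polynomial.coeff_map, Int.coe_castRingHom, Complex.norm_intCast]

theorem natDegree_map_G (a b e : ℤ) (ha : a ≠ 0) :
    ((G a b e).map (Int.castRingHom ℂ)).natDegree = 2 := by
  rw [Polynomial.natDegree_map_eq_of_injective Int.cast_injective, G_natDegree a b e ha]

theorem sz_le_mah (a b e : ℤ) (ha : a ≠ 0) : (sz a b e : ℝ) ≤ 2 * Mah a b e := by
  have hM0 : 0 ≤ Mah a b e := Polynomial.mahlerMeasure_nonneg _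
  have h1 : ∀ i, |(((G a b e).coeff i : ℤ) : ℝ)| ≤ 2 * Mah a b e := by
    intro i
    rw [← mah_coeff]
    refine (Polynomial.norm_coeff_le_choose_mul_mahlerMeasure i _).trans ?_
    rw [natDegree_map_G a b e ha]
    refine mul_le_mul_of_nonneg_right ?_ hM0
    have : Nat.choose 2 i ≤ 2 := by
      rcases i with _ | _ | _ | i
      · decide
      · decide
      · decide
      · rw [Nat.choose_eq_zero_of_lt (by omega)]; omega
    exact_mod_cast this
  have ha' := h1 2
  have hb' := h1 1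
  have he' := h1 0
  rw [G_coeff] at ha' hb' he'
  norm_num at ha' hb' he'
  unfold sz
  rw [Nat.cast_max, Nat.cast_max, Nat.cast_natAbs, Nat.cast_natAbs, Nat.cast_natAbs, Int.cast_abs,
    Int.cast_abs, Int.cast_abs]
  exact max_le ha' (max_le hb' he')

theorem mah_le_sz (a b e : ℤ) (ha : a ≠ 0) : Mah a b e ≤ 3 * (sz a b e : ℝ) := by
  refine (Polynomial.mahlerMeasure_le_sum_norm_coeff _).trans ?_
  obtain ⟨h1, h2, h3⟩ := le_sz a b e
  have h1' : |(a : ℝ)| ≤ sz a b e := by exact_mod_cast h1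
  have h2' : |(b : ℝ)| ≤ sz a b e := by exact_mod_cast h2
  have h3' : |(e : ℝ)| ≤ sz a b e := by exact_mod_cast h3
  rw [Polynomial.sum_over_range _ (by intro n; simp), natDegree_map_G a b e ha]
  have h4 : ∀ i ∈ range (2 + 1), ‖((G a b e).map (Int.castRingHom ℂ)).coeff i‖ ≤ (sz a b e : ℝ) := by
    intro i hi
    rw [mah_coeff, G_coeff]
    rw [mem_range] at hi
    interval_cases i
    · simpa using h3'
    · simpa using h2'
    · simpa using h1'
  refine (sum_le_card_nsmul _ _ _ h4).trans (le_of_eq ?_)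
  rw [card_range, nsmul_eq_mul]
  norm_num

theorem szR_eq (p q : ℤ) : ((szR p q : ℕ) : ℝ) = ((max |p| |q| : ℤ) : ℝ) := by
  unfold szR
  rw [Nat.cast_max, Nat.cast_natAbs, Nat.cast_natAbs, Int.cast_max]

theorem szR_pos {p q : ℤ} (h : IsCoprime p q) : 1 ≤ szR p q := by
  by_contra hcon
  have h0 : szR p q = 0 := by omega
  unfold szR at h0
  have h1 : p.natAbs = 0 := by
    have := le_max_left p.natAbs q.natAbs; omega
  have h2 : q.natAbs = 0 := by
    have := le_max_right p.natAbs q.natAbs; omega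
  rw [Int.natAbs_eq_zero] at h1 h2
  rw [h1, h2] at h
  obtain ⟨x, y, hxy⟩ := h
  simp at hxy

/-- the bound of the main theorem. -/
noncomputable def bd (d T : ℕ) (κ : ℝ) (r : ℕ) (h : ℝ) : ℝ :=
  min (((d : ℝ) - 2) * h + Real.log T) ((((d : ℝ) + 1) * Real.log T - 2 * h) / r) -
    κ / r * Real.log T

theorem weightR {d : ℕ} (S : Finset ℕ) (T : ℕ) (hT : 1 ≤ T) (κ : ℝ) (c : Fin (d + 1) → ℤ)
    (p q : ℤ) (hcop : IsCoprime p q)
    (h : N1 S 1 (val c p q) < bd d T κ 1 (hR p q)) :
    (rho S (val c p q) : ℝ) * wtR d T (szR p q) ≤ (T : ℝ) ^ ((d : ℝ) + 1 - κ) := by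
  have hTr : (1 : ℝ) ≤ T := by exact_mod_cast hT
  have hs1 : (1 : ℝ) ≤ szR p q := by exact_mod_cast szR_pos hcop
  set s : ℝ := (szR p q : ℝ) with hs
  have hρ : (0 : ℝ) < rho S (val c p q) := by exact_mod_cast rho_pos S _
  rw [N1_eq] at h
  unfold bd hR at h
  rw [← szR_eq, ← hs] at h
  push_cast at h
  rw [div_one, div_one, div_one, one_mul] at h
  have ha := lt_of_lt_of_le h (sub_le_sub_right (min_le_left _ _) _)
  have hb := lt_of_lt_of_le h (sub_le_sub_right (min_le_right _ _) _)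
  have hw0 : 0 < wtR d T (szR p q) := by
    unfold wtR
    rw [← hs]
    have : 0 < max 1 ((T : ℝ) / s) := lt_of_lt_of_le one_pos (le_max_left _ _)
    positivity
  rw [← Real.log_le_log_iff (by positivity) (by positivity), Real.log_mul hρ.ne' hw0.ne',
    Real.log_rpow (by linarith)]
  unfold wtR
  rw [← hs]
  rcases le_total s T with hsT | hsT
  · have hm : max 1 ((T : ℝ) / s) = (T : ℝ) / s :=
      max_eq_right (by rw [le_div_iff₀ (by linarith)]; linarith)
    rw [hm, Real.log_mul (by positivity) (by positivity), Real.log_pow, Real.log_pow,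
      Real.log_div (by positivity) (by positivity)]
    push_cast
    linarith
  · have hm : max 1 ((T : ℝ) / s) = 1 :=
      max_eq_left (by rw [div_le_one (by linarith)]; linarith)
    rw [hm, one_pow, mul_one, Real.log_pow]
    push_cast
    linarith

theorem weightQ {d : ℕ} (hd : 2 ≤ d) (S : Finset ℕ) (T : ℕ) (hT : 1 ≤ T) (κ : ℝ)
    (c : Fin (d + 1) → ℤ) {a b e f D : ℤ} (hQu : Quad a b e f D)
    (h : N1 S 2 (Res c a b e) + 1 / 2 * Real.log |(D : ℝ)| < bd d T κ 2 (hQ a b e)) :
    (rho S (Res c a b e) : ℝ) * |(D : ℝ)| * wt d T (sz a b e) ≤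
      3 ^ d * (T : ℝ) ^ ((d : ℝ) + 1 - κ) := by
  have hTr : (1 : ℝ) ≤ T := by exact_mod_cast hT
  have hdr : (2 : ℝ) ≤ d := by exact_mod_cast hd
  have hs1 : (1 : ℝ) ≤ sz a b e := by exact_mod_cast sz_pos hQu
  have h2M := sz_le_mah a b e hQu.a0
  have h3M := mah_le_sz a b e hQu.a0
  set s : ℝ := (sz a b e : ℝ) with hs
  have hρ : (0 : ℝ) < rho S (Res c a b e) := by exact_mod_cast rho_pos S _
  have hD : (0 : ℝ) < |(D : ℝ)| := abs_pos.2 (by exact_mod_cast hQu.D0)
  have hM0 : 0 < Mah a b e := by linarith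
  rw [N1_eq] at h
  unfold bd hQ at h
  push_cast at h
  have ha := lt_of_lt_of_le h (sub_le_sub_right (min_le_left _ _) _)
  have hb := lt_of_lt_of_le h (sub_le_sub_right (min_le_right _ _) _)
  have hw0 : 0 < wt d T (sz a b e) := by
    unfold wt
    rw [← hs]
    have : 0 < max 1 ((T : ℝ) / s) := lt_of_lt_of_le one_pos (le_max_left _ _)
    positivity
  have l1 : Real.log (Mah a b e) ≤ Real.log 3 + Real.log s := by
    rw [← Real.log_mul (by norm_num) (by linarith)]
    exact Real.log_le_log hM0 h3M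
  have l2 : Real.log s ≤ Real.log 2 + Real.log (Mah a b e) := by
    rw [← Real.log_mul (by norm_num) hM0.ne']
    exact Real.log_le_log (by linarith) h2M
  have l3 : Real.log 2 ≤ Real.log 3 := Real.log_le_log (by norm_num) (by norm_num)
  have l4 : 0 < Real.log 2 := Real.log_pos (by norm_num)
  rw [← Real.log_le_log_iff (by positivity) (by positivity), Real.log_mul (by positivity) hw0.ne',
    Real.log_mul hρ.ne' hD.ne', Real.log_mul (by positivity) (by positivity), Real.log_pow,
    Real.log_rpow (by linarith)]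
  unfold wt
  rw [← hs]
  have hd1 : ((d - 1 : ℕ) : ℝ) = (d : ℝ) - 1 := by
    rw [Nat.cast_sub (by omega)]; norm_num
  rcases le_total s T with hsT | hsT
  · have hm : max 1 ((T : ℝ) / s) = (T : ℝ) / s :=
      max_eq_right (by rw [le_div_iff₀ (by linarith)]; linarith)
    rw [hm, Real.log_mul (by positivity) (by positivity), Real.log_pow,
      Real.log_div (by positivity) (by positivity), hd1]
    have l5 : ((d : ℝ) - 2) * Real.log (Mah a b e) ≤ ((d : ℝ) - 2) * (Real.log 3 + Real.log s) :=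
      mul_le_mul_of_nonneg_left l1 (by linarith)
    nlinarith
  · have hm : max 1 ((T : ℝ) / s) = 1 :=
      max_eq_left (by rw [div_le_one (by linarith)]; linarith)
    rw [hm, one_pow, mul_one]
    have l5 : Real.log 3 ≤ d * Real.log 3 := by nlinarith
    linarith

end Pool.Agent.Q256.T3
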