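import Mathlib
import Pool.Agent.Q256.T3.Fin

set_option autoImplicit false

/-!
Almost all divisors of the projective line and all points of degree at most two: the bounds.
-/

namespace Pool.Agent.Q256.T3

open Finset
open Pool.Agent.H813R3.Voj (rho rho_pos)

theorem box_finite (d T : ℕ) : {c : Fin (d + 1) → ℤ | ∀ i, |c i| ≤ T}.Finite := by
  refine Set.Finite.subset (s := ((Fintype.piFinset (fun _ : Fin (d + 1) => Icc (-(T : ℤ)) T) :
    Finset (Fin (d + 1) → ℤ)) : Set (Fin (d + 1) → ℤ))) (finite_toSet _) ?_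
  intro c hc
  rw [mem_coe, Fintype.mem_piFinset]
  intro i
  rw [mem_Icc, ← abs_le]
  exact hc i

theorem bad_finite (d : ℕ) (S : Finset ℕ) (T : ℕ) (lim : ℕ → ℝ) (B : ℕ → ℝ → ℝ) :
    (Bad d S T lim B).Finite := (box_finite d T).subset (fun _ h => h.1)

theorem bad_bd (d : ℕ) (hd : 2 ≤ d) (S : Finset ℕ) (η : ℝ) (hη : 0 < η) (A : ℕ) :
    ∃ C : ℝ, ∀ (T : ℕ) (κ : ℝ), 1 ≤ T →
      ((Bad d S T (fun _ => A * Real.log T) (bd d T κ)).ncard : ℝ) ≤
        C * (T : ℝ) ^ ((d : ℝ) + 1 - κ + η) := by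
  classical
  set t : ℝ := η / (2 * A + 1) with ht
  have ht0 : 0 < t := by positivity
  obtain ⟨C1, hC1, h1⟩ := allR d S t ht0
  obtain ⟨C2, hC2, h2⟩ := main_count (by omega : 1 ≤ d) S t ht0
  refine ⟨(C1 + C2) * 3 ^ d * 2 ^ t, fun T κ hT => ?_⟩
  have hTr : (1 : ℝ) ≤ T := by exact_mod_cast hT
  have hT0 : (0 : ℝ) < T := by linarith
  have hfin := bad_finite d S T (fun _ => A * Real.log T) (bd d T κ)
  set Y : ℕ := 2 * T ^ (2 * A) with hY
  have hY1 : 1 ≤ Y := Nat.succ_le_of_lt (by positivity)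
  set W : ℝ := 3 ^ d * (T : ℝ) ^ ((d : ℝ) + 1 - κ) with hW
  have hW0 : 0 ≤ W := by positivity
  let F1 : Finset (Fin (d + 1) → ℤ) := hfin.toFinset.filter (fun c =>
    ∃ p q : ℤ, IsCoprime p q ∧ szR p q ≤ Y ∧
        val c p q ≠ 0 ∧ (rho S (val c p q) : ℝ) * wtR d T (szR p q) ≤ W)
  let F2 : Finset (Fin (d + 1) → ℤ) := hfin.toFinset.filter (fun c =>
    ∃ a b e f D : ℤ, Quad a b e f D ∧ sz a b e ≤ Y ∧
        Res c a b e ≠ 0 ∧ (rho S (Res c a b e) : ℝ) * |(D : ℝ)| * wt d T (sz a b e) ≤ W)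
  have hsub : hfin.toFinset ⊆ F1 ∪ F2 := by
    intro c hc
    have hc' := (Set.Finite.mem_toFinset _).1 hc
    rw [mem_union, mem_filter, mem_filter]
    obtain ⟨hbox, ⟨p, q, hcop, hv, hh, hN⟩ | ⟨a, b, e, f, D, hQu, hr, hh, hN⟩⟩ := hc'
    · left
      refine ⟨hc, p, q, hcop, ?_, hv, (weightR S T hT κ c p q hcop hN).trans ?_⟩
      · unfold hR at hh
        rw [← szR_eq, ← Real.log_pow] at hh
        have h3 : (szR p q : ℝ) ≤ (T : ℝ) ^ A := by
          refine (Real.log_le_log_iff ?_ (by positivity)).1 hh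
          exact_mod_cast szR_pos hcop
        have h4 : szR p q ≤ T ^ A := by exact_mod_cast h3
        have h5 : T ^ A ≤ T ^ (2 * A) := Nat.pow_le_pow_right hT (by omega)
        omega
      · exact le_mul_of_one_le_left (by positivity) (one_le_pow₀ (by norm_num))
    · right
      refine ⟨hc, a, b, e, f, D, hQu, ?_, hr, weightQ hd S T hT κ c hQu hN⟩
      unfold hQ at hh
      have h3 : Real.log (Mah a b e) ≤ Real.log ((T : ℝ) ^ (2 * A)) := by
        rw [Real.log_pow]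
        push_cast
        linarith
      have h5 := sz_le_mah a b e hQu.a0
      have hs1 : (1 : ℝ) ≤ sz a b e := by exact_mod_cast sz_pos hQu
      have hM0 : 0 < Mah a b e := by linarith
      have h4 : Mah a b e ≤ (T : ℝ) ^ (2 * A) := (Real.log_le_log_iff hM0 (by positivity)).1 h3
      have h6 : (sz a b e : ℝ) ≤ 2 * (T : ℝ) ^ (2 * A) := by linarith
      exact_mod_cast h6
  have hF1 : (#F1 : ℝ) ≤ C1 * W * ((T * Y : ℕ) : ℝ) ^ t := by
    refine h1 T Y W F1 hT hY1 hW0 (fun c hc => ?_)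
    rw [mem_filter] at hc
    exact ⟨((Set.Finite.mem_toFinset _).1 hc.1).1, hc.2⟩
  have hF2 : (#F2 : ℝ) ≤ C2 * W * ((T * Y : ℕ) : ℝ) ^ t := by
    refine h2 T Y W F2 hT hY1 hW0 (fun c hc => ?_)
    rw [mem_filter] at hc
    exact ⟨((Set.Finite.mem_toFinset _).1 hc.1).1, hc.2⟩
  have hcard : ((Bad d S T (fun _ => A * Real.log T) (bd d T κ)).ncard : ℝ) ≤ #F1 + #F2 := by
    rw [Set.ncard_eq_toFinset_card _ hfin]
    exact_mod_cast (card_le_card hsub).trans (card_union_le _ _)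
  have hTY : ((T * Y : ℕ) : ℝ) ^ t = 2 ^ t * (T : ℝ) ^ η := by
    have e1 : ((T * Y : ℕ) : ℝ) = 2 * (T : ℝ) ^ (2 * A + 1) := by rw [hY]; push_cast; ring
    rw [e1, Real.mul_rpow (by norm_num) (by positivity), ← Real.rpow_natCast (T : ℝ) (2 * A + 1),
      ← Real.rpow_mul hT0.le]
    congr 2
    rw [ht]
    push_cast
    field_simp
  rw [hTY] at hF1 hF2
  calc ((Bad d S T (fun _ => A * Real.log T) (bd d T κ)).ncard : ℝ) ≤ #F1 + #F2 := hcard
    _ ≤ C1 * W * (2 ^ t * (T : ℝ) ^ η) + C2 * W * (2 ^ t * (T : ℝ) ^ η) := add_le_add hF1 hF2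
    _ = (C1 + C2) * 3 ^ d * 2 ^ t * (T : ℝ) ^ ((d : ℝ) + 1 - κ + η) := by
        rw [hW, Real.rpow_add hT0 ((d : ℝ) + 1 - κ) η]
        ring

/-- Vojta's inequality. -/
theorem bad_vojta (d : ℕ) (hd : 2 ≤ d) (S : Finset ℕ) (η : ℝ) (hη : 0 < η) :
    ∃ C : ℝ, ∀ (T : ℕ) (κ : ℝ), 1 ≤ T → 0 ≤ κ → κ ≤ 1 →
      ((Bad d S T (fun r => ((d : ℝ) + 1 - κ) / (2 + r * ((d : ℝ) - 2)) * Real.log T)
        (fun _ h => ((d : ℝ) - 2) * h)).ncard : ℝ) ≤ C * (T : ℝ) ^ ((d : ℝ) + 1 - κ + η) := by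
  obtain ⟨C, hC⟩ := bad_bd d hd S η hη 3
  refine ⟨C, fun T κ hT hκ0 hκ1 => le_trans ?_ (hC T κ hT)⟩
  have hTr : (1 : ℝ) ≤ T := by exact_mod_cast hT
  have hdr : (2 : ℝ) ≤ d := by exact_mod_cast hd
  have hL : 0 ≤ Real.log T := Real.log_nonneg hTr
  have hsub : Bad d S T (fun r => ((d : ℝ) + 1 - κ) / (2 + r * ((d : ℝ) - 2)) * Real.log T)
      (fun _ h => ((d : ℝ) - 2) * h) ⊆
      Bad d S T (fun _ => (3 : ℕ) * Real.log T) (bd d T κ) := by
    -- the comparison of the bounds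
    have hcmp : ∀ (r : ℕ) (h : ℝ), 1 ≤ r → r ≤ 2 →
        h ≤ ((d : ℝ) + 1 - κ) / (2 + r * ((d : ℝ) - 2)) * Real.log T →
        h ≤ (3 : ℕ) * Real.log T ∧ ((d : ℝ) - 2) * h ≤ bd d T κ r h := by
      intro r h hr1 hr2 hh
      have hr1' : (1 : ℝ) ≤ r := by exact_mod_cast hr1
      have hr2' : (r : ℝ) ≤ 2 := by exact_mod_cast hr2
      have hden : 0 < 2 + r * ((d : ℝ) - 2) := by nlinarith
      have h3 : (2 + r * ((d : ℝ) - 2)) * h ≤ ((d : ℝ) + 1 - κ) * Real.log T := by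
        have h4 := mul_le_mul_of_nonneg_left hh hden.le
        have h5 : (2 + r * ((d : ℝ) - 2)) * (((d : ℝ) + 1 - κ) / (2 + r * ((d : ℝ) - 2)) *
            Real.log T) = ((d : ℝ) + 1 - κ) * Real.log T := by field_simp
        rw [h5] at h4
        exact h4
      constructor
      · refine hh.trans (mul_le_mul_of_nonneg_right ?_ hL)
        rw [div_le_iff₀ hden]
        push_cast
        nlinarith
      · unfold bd
        rw [le_sub_iff_add_le]
        refine le_min ?_ ?_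
        · have h6 : κ / r ≤ 1 := by rw [div_le_one (by linarith)]; linarith
          have h7 : κ / r * Real.log T ≤ 1 * Real.log T := mul_le_mul_of_nonneg_right h6 hL
          linarith
        · rw [le_div_iff₀ (by linarith)]
          have h8 : (((d : ℝ) - 2) * h + κ / r * Real.log T) * r =
              r * ((d : ℝ) - 2) * h + κ * Real.log T := by field_simp
          rw [h8]
          linarith
    rintro c ⟨hbox, ⟨p, q, hcop, hv, hh, hN⟩ | ⟨a, b, e, f, D, hQu, hr, hh, hN⟩⟩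
    · obtain ⟨h1, h2⟩ := hcmp 1 (hR p q) le_rfl (by norm_num) hh
      exact ⟨hbox, Or.inl ⟨p, q, hcop, hv, h1, lt_of_lt_of_le hN h2⟩⟩
    · obtain ⟨h1, h2⟩ := hcmp 2 (hQ a b e) (by norm_num) le_rfl hh
      exact ⟨hbox, Or.inr ⟨a, b, e, f, D, hQu, hr, h1, lt_of_lt_of_le hN h2⟩⟩
  exact_mod_cast Set.ncard_le_ncard hsub (bad_finite _ _ _ _ _)

theorem rho_le (S : Finset ℕ) (n : ℤ) (hn : n ≠ 0) : rho S n ≤ n.natAbs := by
  unfold rho
  have h1 : ∏ p ∈ n.natAbs.primeFactors \ S, p ≤ ∏ p ∈ n.natAbs.primeFactors, p :=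
    Finset.prod_le_prod_of_subset_of_one_le' Finset.sdiff_subset
      (fun p hp _ => (Nat.prime_of_mem_primeFactors hp).one_le)
  exact h1.trans (Nat.le_of_dvd (Int.natAbs_pos.2 hn) (Nat.prod_primeFactors_dvd _))

/-- the exponent is optimal. -/
theorem bad_lower (d : ℕ) (S : Finset ℕ) (A T : ℕ) (κ : ℝ) (hT : 1 ≤ T) (hκ0 : 0 ≤ κ) :
    (T : ℝ) ^ d * ((T : ℝ) ^ (1 - κ) - 1) ≤
      ((Bad d S T (fun _ => A * Real.log T) (bd d T κ)).ncard : ℝ) := by
  classical
  have hTr : (1 : ℝ) ≤ T := by exact_mod_cast hT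
  have hT0 : (0 : ℝ) < T := by linarith
  have hL : 0 ≤ Real.log T := Real.log_nonneg hTr
  set x : ℝ := (T : ℝ) ^ (1 - κ) with hx
  have hx0 : 0 < x := Real.rpow_pos_of_pos hT0 _
  set n : ℕ := ⌈x⌉₊ - 1 with hn
  have hceil : 1 ≤ ⌈x⌉₊ := Nat.one_le_iff_ne_zero.2 (Nat.ceil_pos.2 hx0).ne'
  have hn1 : x - 1 ≤ n := by
    rw [hn, Nat.cast_sub hceil]
    have := Nat.le_ceil x
    push_cast
    linarith
  have hn2 : (n : ℝ) < x := by
    rw [hn, Nat.cast_sub hceil]
    have := Nat.ceil_lt_add_one hx0.le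
    push_cast
    linarith
  have hxT : x ≤ T := by
    have := Real.rpow_le_rpow_of_exponent_le hTr (by linarith : 1 - κ ≤ 1)
    rw [Real.rpow_one] at this
    exact this
  have hnT : n ≤ T := by
    have : (n : ℝ) < T := lt_of_lt_of_le hn2 hxT
    exact_mod_cast this.le
  let F : Finset (Fin (d + 1) → ℤ) :=
    (Icc (1 : ℤ) n ×ˢ Fintype.piFinset (fun _ : Fin d => Icc (-(T : ℤ)) T)).image
      (fun u => (Fin.cons u.1 u.2 : Fin (d + 1) → ℤ))
  have hFsub : (F : Set (Fin (d + 1) → ℤ)) ⊆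
      Bad d S T (fun _ => A * Real.log T) (bd d T κ) := by
    intro c hc
    rw [mem_coe, mem_image] at hc
    obtain ⟨⟨u, v⟩, huv, rfl⟩ := hc
    rw [mem_product, Fintype.mem_piFinset, mem_Icc] at huv
    obtain ⟨⟨hu1, hu2⟩, hv⟩ := huv
    simp only at hu1 hu2 hv
    have hval : val (Fin.cons u v : Fin (d + 1) → ℤ) 0 1 = u := by
      unfold val
      rw [Fin.sum_univ_succ]
      simp
    have hh : hR 0 1 = 0 := by unfold hR; simp
    refine ⟨?_, Or.inl ⟨0, 1, isCoprime_one_right, ?_, ?_, ?_⟩⟩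
    · intro i
      refine Fin.cases ?_ (fun j => ?_) i
      · rw [Fin.cons_zero, abs_of_nonneg (by omega)]
        omega
      · rw [Fin.cons_succ, abs_le]
        exact mem_Icc.1 (hv j)
    · rw [hval]; omega
    · rw [hh]; positivity
    · rw [hval, hh, N1_eq]
      unfold bd
      push_cast
      rw [div_one, div_one, div_one, one_mul, mul_zero, mul_zero, zero_add, sub_zero]
      have h1 : Real.log T ≤ ((d : ℝ) + 1) * Real.log T := by nlinarith [Nat.cast_nonneg (α := ℝ) d]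
      rw [min_eq_left h1]
      have hρ : (0 : ℝ) < rho S u := by exact_mod_cast rho_pos S _
      have h2 : (rho S u : ℝ) < x := by
        have h3 := rho_le S u (by omega)
        have h4 : u.natAbs ≤ n := by omega
        have h5 : ((rho S u : ℕ) : ℝ) ≤ n := by exact_mod_cast h3.trans h4
        exact lt_of_le_of_lt h5 hn2
      have h3 : Real.log (rho S u) < Real.log x := Real.log_lt_log hρ h2
      rw [hx, Real.log_rpow hT0] at h3
      linarith
  have hcard : #F = n * (2 * T + 1) ^ d := by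
    rw [card_image_of_injective, card_product, Int.card_Icc, Fintype.card_piFinset, prod_const,
      card_univ, Fintype.card_fin, Int.card_Icc]
    · congr 2 <;> omega
    · intro u v h
      have h1 := congrFun h 0
      simp only [Fin.cons_zero] at h1
      refine Prod.ext h1 ?_
      funext j
      have := congrFun h j.succ
      simpa using this
  have h1 : ((#F : ℕ) : ℝ) ≤ ((Bad d S T (fun _ => A * Real.log T) (bd d T κ)).ncard : ℝ) := by
    have h2 := Set.ncard_le_ncard hFsub (bad_finite _ _ _ _ _)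
    rw [Set.ncard_coe_finset] at h2
    exact_mod_cast h2
  refine le_trans ?_ h1
  rw [hcard]
  push_cast
  rw [mul_comm]
  refine mul_le_mul hn1 (pow_le_pow_left₀ hT0.le (by linarith) _) (by positivity)
    (Nat.cast_nonneg _)

end Pool.Agent.Q256.T3
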